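import Mathlib

set_option autoImplicit false

/-!
Facts about exterior algebras, in every characteristic: even and odd elements, contraction.
-/

namespace Pool.Agent.H772R3.Ext

open CliffordAlgebra

universe u v

variable {F : Type u} [Field F] {V : Type v} [AddCommGroup V] [Module F V]

/-- The exterior algebra. -/
abbrev Λ (F : Type u) (V : Type v) [Field F] [AddCommGroup V] [Module F V] : Type (max u v) :=
  CliffordAlgebra (0 : QuadraticForm F V)

/-- The embedding of `V` in its exterior algebra. -/
abbrev ι' (v : V) : Λ F V := ι (0 : QuadraticForm F V) v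

/-- The even part. -/
abbrev E0 (F : Type u) (V : Type v) [Field F] [AddCommGroup V] [Module F V] :
    Submodule F (Λ F V) := evenOdd (0 : QuadraticForm F V) 0

/-- The odd part. -/
abbrev E1 (F : Type u) (V : Type v) [Field F] [AddCommGroup V] [Module F V] :
    Submodule F (Λ F V) := evenOdd (0 : QuadraticForm F V) 1

/-- Contraction. -/
abbrev ct (d : Module.Dual F V) (x : Λ F V) : Λ F V := contractLeft d x

lemma ι_sq (v : V) : (ι' v : Λ F V) * ι' v = 0 := by
  rw [ι_sq_scalar]; simp

lemma ι_swap (v w : V) : (ι' v : Λ F V) * ι' w = -(ι' w * ι' v) := by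
  have h := ι_sq (F := F) (v + w)
  rw [ι', map_add, add_mul, mul_add, mul_add] at h
  have h1 : (ι (0 : QuadraticForm F V)) v * (ι (0 : QuadraticForm F V)) v = 0 := ι_sq v
  have h2 : (ι (0 : QuadraticForm F V)) w * (ι (0 : QuadraticForm F V)) w = 0 := ι_sq w
  rw [h1, h2, zero_add, add_zero] at h
  exact eq_neg_of_add_eq_zero_left h

lemma ι_comm (v : V) (y : Λ F V) : (ι' v : Λ F V) * y = involute y * ι' v := by
  induction y using CliffordAlgebra.induction with
  | algebraMap r => simp only [AlgHom.commutes]; exact (Algebra.commutes r _).symm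
  | ι w => rw [involute_ι, neg_mul]; exact ι_swap v w
  | mul a b ha hb => rw [map_mul, ← mul_assoc, ha, mul_assoc, hb, mul_assoc]
  | add a b ha hb => rw [map_add, mul_add, add_mul, ha, hb]

lemma ι_comm' (v : V) (y : Λ F V) : y * (ι' v : Λ F V) = ι' v * involute y := by
  rw [ι_comm, involute_involute]

lemma ιι_comm (v w : V) (y : Λ F V) : (ι' v * ι' w : Λ F V) * y = y * (ι' v * ι' w) := by
  rw [mul_assoc, ι_comm w, ← mul_assoc, ι_comm v, involute_involute, mul_assoc]

lemma even_comm {x : Λ F V} (hx : x ∈ E0 F V) (y : Λ F V) : x * y = y * x := by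
  induction x, hx using even_induction with
  | algebraMap r => exact Algebra.commutes r y
  | add a b _ _ ha hb => rw [add_mul, mul_add, ha, hb]
  | ι_mul_ι_mul m n x _ h =>
    rw [mul_assoc, h]
    have := ιι_comm (F := F) m n y
    rw [← mul_assoc, this, mul_assoc]

lemma odd_comm {x : Λ F V} (hx : x ∈ E1 F V) (y : Λ F V) : x * y = involute y * x := by
  induction x, hx using odd_induction with
  | ι v => exact ι_comm v y
  | add a b _ _ ha hb => rw [add_mul, mul_add, ha, hb]
  | ι_mul_ι_mul m n x _ h =>
    rw [mul_assoc, h]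
    have := ιι_comm (F := F) m n (involute y)
    rw [← mul_assoc, this, mul_assoc]

lemma odd_anti {x y : Λ F V} (hx : x ∈ E1 F V) (hy : y ∈ E1 F V) : x * y = -(y * x) := by
  rw [odd_comm hx, involute_eq_of_mem_odd hy, neg_mul]

lemma odd_sq {x : Λ F V} (hx : x ∈ E1 F V) : x * x = 0 := by
  induction x, hx using odd_induction with
  | ι v => exact ι_sq v
  | add a b ha hb iha ihb =>
    rw [add_mul, mul_add, mul_add, iha, ihb, odd_anti ha hb]; abel
  | ι_mul_ι_mul m n x _ h =>
    have : (ι' m * ι' n : Λ F V) * x * (ι' m * ι' n * x) = (ι' m * ι' n) * (ι' m * ι' n) * (x * x) := by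
      rw [mul_assoc, ← mul_assoc x, ← ιι_comm m n x]
      simp only [mul_assoc]
    rw [this, h, mul_zero]

lemma ct_mul (d : Module.Dual F V) (x y : Λ F V) :
    ct d (x * y) = ct d x * y + involute x * ct d y := by
  induction x using CliffordAlgebra.induction generalizing y with
  | algebraMap r =>
    rw [ct, contractLeft_algebraMap_mul, ct, contractLeft_algebraMap, zero_mul, zero_add,
      AlgHom.commutes]
  | ι w =>
    rw [ct, contractLeft_ι_mul, ct, contractLeft_ι, involute_ι, neg_mul, ← sub_eq_add_neg,
      ← Algebra.smul_def]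
  | mul a b ha hb =>
    rw [mul_assoc, ha, hb, ha, map_mul, mul_add, add_mul, mul_assoc, mul_assoc, mul_assoc,
      add_assoc]
  | add a b ha hb =>
    have h1 := ha y
    have h2 := hb y
    have h3 : ct d (a * y + b * y) = ct d (a * y) + ct d (b * y) := map_add _ _ _
    have h4 : ct d (a + b) = ct d a + ct d b := map_add _ _ _
    rw [add_mul, h3, h1, h2, h4, map_add, add_mul, add_mul]; abel

lemma ct_even (d : Module.Dual F V) {x : Λ F V} (hx : x ∈ E0 F V) : ct d x ∈ E1 F V := by
  induction x, hx using even_induction with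
  | algebraMap r => rw [ct, contractLeft_algebraMap]; exact Submodule.zero_mem _
  | add a b _ _ ha hb => rw [ct, map_add]; exact Submodule.add_mem _ ha hb
  | ι_mul_ι_mul m n x hx h =>
    rw [mul_assoc, ct, contractLeft_ι_mul, contractLeft_ι_mul]
    refine Submodule.sub_mem _ (Submodule.smul_mem _ _ ?_) ?_
    · have := SetLike.mul_mem_graded (ι_mem_evenOdd_one (0 : QuadraticForm F V) n) hx
      simpa using this
    · rw [mul_sub]
      refine Submodule.sub_mem _ ?_ ?_
      · rw [mul_smul_comm]
        refine Submodule.smul_mem _ _ ?_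
        have := SetLike.mul_mem_graded (ι_mem_evenOdd_one (0 : QuadraticForm F V) m) hx
        simpa using this
      · rw [← mul_assoc]
        have := SetLike.mul_mem_graded (ι_mul_ι_mem_evenOdd_zero (0 : QuadraticForm F V) m n) h
        simpa using this

lemma ct_odd (d : Module.Dual F V) {x : Λ F V} (hx : x ∈ E1 F V) : ct d x ∈ E0 F V := by
  induction x, hx using odd_induction with
  | ι v => rw [ct, contractLeft_ι]; exact SetLike.algebraMap_mem_graded _ _
  | add a b _ _ ha hb => rw [ct, map_add]; exact Submodule.add_mem _ ha hb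
  | ι_mul_ι_mul m n x hx h =>
    rw [mul_assoc, ct, contractLeft_ι_mul, contractLeft_ι_mul]
    have h11 : (1 : ZMod 2) + 1 = 0 := by decide
    refine Submodule.sub_mem _ (Submodule.smul_mem _ _ ?_) ?_
    · have := SetLike.mul_mem_graded (ι_mem_evenOdd_one (0 : QuadraticForm F V) n) hx
      rw [h11] at this
      exact this
    · rw [mul_sub]
      refine Submodule.sub_mem _ ?_ ?_
      · rw [mul_smul_comm]
        refine Submodule.smul_mem _ _ ?_
        have := SetLike.mul_mem_graded (ι_mem_evenOdd_one (0 : QuadraticForm F V) m) hx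
        rw [h11] at this
        exact this
      · rw [← mul_assoc]
        have := SetLike.mul_mem_graded (ι_mul_ι_mem_evenOdd_zero (0 : QuadraticForm F V) m n) h
        simpa using this

lemma ι_mul_even (v : V) {x : Λ F V} (hx : x ∈ E0 F V) : ι' v * x ∈ E1 F V := by
  have := SetLike.mul_mem_graded (ι_mem_evenOdd_one (0 : QuadraticForm F V) v) hx
  simpa using this

lemma odd_mul_odd {x y : Λ F V} (hx : x ∈ E1 F V) (hy : y ∈ E1 F V) : x * y ∈ E0 F V := by
  have := SetLike.mul_mem_graded hx hy
  have h11 : (1 : ZMod 2) + 1 = 0 := by decide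
  rw [h11] at this
  exact this

lemma even_mul_odd {x y : Λ F V} (hx : x ∈ E0 F V) (hy : y ∈ E1 F V) : x * y ∈ E1 F V := by
  have := SetLike.mul_mem_graded hx hy
  simpa using this

lemma even_mul_even {x y : Λ F V} (hx : x ∈ E0 F V) (hy : y ∈ E0 F V) : x * y ∈ E0 F V := by
  have := SetLike.mul_mem_graded hx hy
  simpa using this

lemma algebraMap_even (r : F) : algebraMap F (Λ F V) r ∈ E0 F V :=
  SetLike.algebraMap_mem_graded _ _

end Pool.Agent.H772R3.Ext
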