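import Pool.Agent.H75R4.Gab.Stmts

set_option autoImplicit false

namespace Pool.Agent.H772R3.GabPair

open MeasureTheory Complex Pool.Agent.H75R4.Gab

theorem iv_apply (n : Fin 5 → ℤ) (i : Fin 5) : iv n i = (n i : ℝ) := by
  simp [iv]

theorem mem_cube_sub {z a : V} {n : Fin 5 → ℤ} :
    z - a ∈ cube (iv n) ↔ ∀ i, (n i : ℝ) ≤ z i - a i ∧ z i - a i < n i + 1 := by
  simp [cube, iv_apply]

theorem even_YZ : ∀ (p : Fin 7) (i : Fin 5), (2 : ℤ) ∣ YZ p i := by decide

theorem comb : ∀ j k p q : Fin 7, (∀ i : Fin 5, YZ p i - YZ q i = YZ j i - YZ k i) →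
    (p = j ∧ q = k) ∨ (j = k ∧ p = q) := by decide +kernel

theorem key {a a' x z : V} {j k p q : Fin 7} (hx1 : x - a ∈ cube (iv (YZ j)))
    (hx2 : x - a' ∈ cube (iv (YZ k))) (hz1 : z - a ∈ cube (iv (YZ p)))
    (hz2 : z - a' ∈ cube (iv (YZ q))) : (p = j ∧ q = k) ∨ (j = k ∧ p = q) := by
  apply comb
  intro i
  have h1 := mem_cube_sub.1 hx1 i
  have h2 := mem_cube_sub.1 hx2 i
  have h3 := mem_cube_sub.1 hz1 i
  have h4 := mem_cube_sub.1 hz2 i
  have e1 : ((YZ p i - YZ q i - (YZ j i - YZ k i) : ℤ) : ℝ) < 2 := by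
    push_cast
    linarith [h1.1, h1.2, h2.1, h2.2, h3.1, h3.2, h4.1, h4.2]
  have e2 : (-2 : ℝ) < ((YZ p i - YZ q i - (YZ j i - YZ k i) : ℤ) : ℝ) := by
    push_cast
    linarith [h1.1, h1.2, h2.1, h2.2, h3.1, h3.2, h4.1, h4.2]
  have e1' : YZ p i - YZ q i - (YZ j i - YZ k i) < 2 := by exact_mod_cast e1
  have e2' : -2 < YZ p i - YZ q i - (YZ j i - YZ k i) := by exact_mod_cast e2
  have d1 := even_YZ p i
  have d2 := even_YZ q i
  have d3 := even_YZ j i
  have d4 := even_YZ k i
  omega

/-- the exponential -/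
noncomputable def ex (β z : V) : ℂ :=
  exp (-(2 * (Real.pi : ℂ) * I * ((inner ℝ z β : ℝ) : ℂ)))

theorem ex_cont (β : V) : Continuous (ex β) := by
  unfold ex
  fun_prop

/-- the box -/
def Box (l u : Fin 5 → ℝ) : Set V := {x | ∀ i, l i ≤ x i ∧ x i < u i}

theorem meas_box (l u : Fin 5 → ℝ) : MeasurableSet (Box l u) := by
  have : Box l u = ⋂ i, ({x : V | l i ≤ x i} ∩ {x : V | x i < u i}) := by
    ext x
    simp [Box]
  rw [this]
  refine MeasurableSet.iInter fun i => ?_
  have hc : Continuous fun x : V => x i := by fun_prop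
  exact (measurableSet_le measurable_const hc.measurable).inter
    (measurableSet_lt hc.measurable measurable_const)

theorem int_box (l u : Fin 5 → ℝ) (β : V) : Integrable ((Box l u).indicator (ex β)) := by
  rw [integrable_indicator_iff (meas_box l u)]
  have hK : IsCompact ((EuclideanSpace.equiv (Fin 5) ℝ) ⁻¹' (Set.Icc l u)) :=
    (EuclideanSpace.equiv (Fin 5) ℝ).toHomeomorph.isCompact_preimage.2 isCompact_Icc
  refine ((ex_cont β).continuousOn.integrableOn_compact hK).mono_set ?_
  intro x hx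
  simp only [Set.mem_preimage, Set.mem_Icc]
  exact ⟨fun i => (hx i).1, fun i => (hx i).2.le⟩

theorem conj_exp (r : ℝ) : starRingEnd ℂ (exp (-(2 * (Real.pi : ℂ) * I * (r : ℂ)))) =
    exp (2 * (Real.pi : ℂ) * I * (r : ℂ)) := by
  rw [← exp_conj]
  congr 1
  simp only [map_neg, map_mul, conj_I, conj_ofReal]
  rw [show starRingEnd ℂ (2 : ℂ) = 2 from map_ofNat _ 2]
  ring

theorem prod_ex (b b' z : V) :
    exp (-(2 * (Real.pi : ℂ) * I * ((inner ℝ z b : ℝ) : ℂ))) *
      starRingEnd ℂ (exp (-(2 * (Real.pi : ℂ) * I * ((inner ℝ z b' : ℝ) : ℂ)))) =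
      ex (b - b') z := by
  rw [conj_exp, ← exp_add, ex, inner_sub_right]
  congr 1
  push_cast
  ring

open Classical in
theorem G_mul (a a' b b' z : V) :
    G (a, b) z * starRingEnd ℂ (G (a', b') z) =
      if z - a ∈ E ∧ z - a' ∈ E then ex (b - b') z else 0 := by
  unfold G
  simp only
  by_cases h1 : z - a ∈ E
  · by_cases h2 : z - a' ∈ E
    · rw [if_pos ⟨h1, h2⟩, Set.indicator_of_mem h1, Set.indicator_of_mem h2, one_mul, one_mul,
        prod_ex]
    · rw [if_neg (fun h => h2 h.2), Set.indicator_of_notMem h2]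
      simp
  · rw [if_neg (fun h => h1 h.1), Set.indicator_of_notMem h1]
    simp

theorem mem_E {z : V} : z ∈ E ↔ ∃ j, z ∈ cube (iv (YZ j)) := by
  simp [E]

theorem taskPair : TaskPair := by
  intro hbox a a' b b' x hxa hxa' hb hint
  obtain ⟨j, hj⟩ := mem_E.1 hxa
  obtain ⟨k, hk⟩ := mem_E.1 hxa'
  have hxj := mem_cube_sub.1 hj
  have hxk := mem_cube_sub.1 hk
  have hβ : ∀ i, |(b - b') i| < 1 := by
    intro i
    simpa using hb i
  by_cases hjk : j = k
  · subst hjk
    refine ⟨⟨j, hj, hk⟩, ?_⟩
    -- the boxes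
    set l : Fin 7 → Fin 5 → ℝ := fun p i => max (a i) (a' i) + YZ p i with hl
    set u : Fin 7 → Fin 5 → ℝ := fun p i => min (a i) (a' i) + 1 + YZ p i with hu
    set l0 : Fin 5 → ℝ := fun i => max (a i) (a' i) with hl0
    set u0 : Fin 5 → ℝ := fun i => min (a i) (a' i) + 1 with hu0
    have hmem : ∀ p z, z ∈ Box (l p) (u p) ↔ z - a ∈ cube (iv (YZ p)) ∧ z - a' ∈ cube (iv (YZ p)) := by
      intro p z
      rw [mem_cube_sub, mem_cube_sub]
      simp only [Box, hl, hu, Set.mem_ofPred_eq, ← forall_and]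
      refine forall_congr' fun i => ?_
      constructor
      · rintro ⟨h1, h2⟩
        have := le_max_left (a i) (a' i)
        have := le_max_right (a i) (a' i)
        have := min_le_left (a i) (a' i)
        have := min_le_right (a i) (a' i)
        refine ⟨⟨?_, ?_⟩, ⟨?_, ?_⟩⟩ <;> linarith
      · rintro ⟨⟨h1, h2⟩, ⟨h3, h4⟩⟩
        constructor
        · rcases max_cases (a i) (a' i) with h | h <;> linarith [h.1]
        · rcases min_cases (a i) (a' i) with h | h <;> linarith [h.1]
    have hfun : (fun z => G (a, b) z * starRingEnd ℂ (G (a', b') z)) =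
        fun z => ∑ p : Fin 7, (Box (l p) (u p)).indicator (ex (b - b')) z := by
      funext z
      rw [G_mul]
      split_ifs with h
      · obtain ⟨p, hp⟩ := mem_E.1 h.1
        obtain ⟨q, hq⟩ := mem_E.1 h.2
        have hpq : p = q := by
          rcases key hj hk hp hq with h | h
          · rw [h.1, h.2]
          · exact h.2
        subst hpq
        rw [Finset.sum_eq_single p]
        · rw [Set.indicator_of_mem ((hmem p z).2 ⟨hp, hq⟩)]
        · intro r _ hr
          apply Set.indicator_of_notMem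
          intro hz
          have hz' := ((hmem r z).1 hz).1
          rcases key hp hp hz' hp with h | h
          · exact hr h.1
          · exact hr h.2
        · intro h
          exact absurd (Finset.mem_univ p) h
      · symm
        apply Finset.sum_eq_zero
        intro p _
        apply Set.indicator_of_notMem
        intro hz
        exact h ⟨mem_E.2 ⟨p, ((hmem p z).1 hz).1⟩, mem_E.2 ⟨p, ((hmem p z).1 hz).2⟩⟩
    have htr : ∀ p, ∫ z, (Box (l p) (u p)).indicator (ex (b - b')) z =
        ex (b - b') (iv (YZ p)) * ∫ z, (Box l0 u0).indicator (ex (b - b')) z := by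
      intro p
      rw [← integral_add_right_eq_self (fun z => (Box (l p) (u p)).indicator (ex (b - b')) z)
        (iv (YZ p)), ← integral_const_mul]
      congr 1
      funext z
      have hiff : z + iv (YZ p) ∈ Box (l p) (u p) ↔ z ∈ Box l0 u0 := by
        simp only [Box, Set.mem_ofPred_eq, hl, hu, hl0, hu0, PiLp.add_apply, iv_apply]
        refine forall_congr' fun i => ?_
        constructor
        · rintro ⟨h1, h2⟩
          constructor <;> linarith
        · rintro ⟨h1, h2⟩
          constructor <;> linarith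
      by_cases hz : z ∈ Box l0 u0
      · rw [Set.indicator_of_mem hz, Set.indicator_of_mem (hiff.2 hz)]
        unfold ex
        rw [← exp_add, inner_add_left]
        congr 1
        push_cast
        ring
      · rw [Set.indicator_of_notMem hz, Set.indicator_of_notMem (fun h => hz (hiff.1 h)), mul_zero]
    have hne : ∫ z, (Box l0 u0).indicator (ex (b - b')) z ≠ 0 := by
      rw [integral_indicator (meas_box l0 u0)]
      refine hbox l0 u0 (b - b') ?_ ?_ hβ
      · intro i
        have h1 := hxj i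
        have h2 := hxk i
        simp only [hl0, hu0]
        rcases max_cases (a i) (a' i) with h | h <;> rcases min_cases (a i) (a' i) with h' | h' <;>
          linarith [h.1, h'.1]
      · intro i
        simp only [hl0, hu0]
        have := le_max_left (a i) (a' i)
        have := min_le_left (a i) (a' i)
        linarith
    rw [hfun, integral_finsetSum _ (fun p _ => int_box (l p) (u p) (b - b'))] at hint
    simp only [htr] at hint
    rw [← Finset.sum_mul] at hint
    have hsum : ∑ p : Fin 7, ex (b - b') (iv (YZ p)) = 0 := (mul_eq_zero.1 hint).resolve_right hne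
    have hW : starRingEnd ℂ (∑ p : Fin 7, ex (b - b') (iv (YZ p))) = W (b - b') := by
      rw [map_sum]
      unfold W ex
      refine Finset.sum_congr rfl fun p _ => ?_
      exact conj_exp _
    rw [← hW, hsum, map_zero]
  · exfalso
    set l : Fin 5 → ℝ := fun i => max (a i + YZ j i) (a' i + YZ k i) with hl
    set u : Fin 5 → ℝ := fun i => min (a i + YZ j i + 1) (a' i + YZ k i + 1) with hu
    have hmem : ∀ z, z ∈ Box l u ↔ z - a ∈ cube (iv (YZ j)) ∧ z - a' ∈ cube (iv (YZ k)) := by
      intro z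
      rw [mem_cube_sub, mem_cube_sub]
      simp only [Box, hl, hu, Set.mem_ofPred_eq, ← forall_and, max_le_iff, lt_min_iff]
      refine forall_congr' fun i => ?_
      constructor
      · rintro ⟨⟨h1, h2⟩, h3, h4⟩
        refine ⟨⟨?_, ?_⟩, ⟨?_, ?_⟩⟩ <;> linarith
      · rintro ⟨⟨h1, h2⟩, ⟨h3, h4⟩⟩
        refine ⟨⟨?_, ?_⟩, ⟨?_, ?_⟩⟩ <;> linarith
    have hfun : (fun z => G (a, b) z * starRingEnd ℂ (G (a', b') z)) =
        fun z => (Box l u).indicator (ex (b - b')) z := by
      funext z
      rw [G_mul]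
      split_ifs with h
      · obtain ⟨p, hp⟩ := mem_E.1 h.1
        obtain ⟨q, hq⟩ := mem_E.1 h.2
        have hpq : p = j ∧ q = k := by
          rcases key hj hk hp hq with h | h
          · exact h
          · exact absurd h.1 hjk
        rw [hpq.1] at hp
        rw [hpq.2] at hq
        rw [Set.indicator_of_mem ((hmem z).2 ⟨hp, hq⟩)]
      · rw [Set.indicator_of_notMem]
        intro hz
        exact h ⟨mem_E.2 ⟨j, ((hmem z).1 hz).1⟩, mem_E.2 ⟨k, ((hmem z).1 hz).2⟩⟩
    rw [hfun, integral_indicator (meas_box l u)] at hint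
    refine hbox l u (b - b') ?_ ?_ hβ hint
    · intro i
      have h1 := hxj i
      have h2 := hxk i
      simp only [hl, hu, max_lt_iff, lt_min_iff]
      refine ⟨⟨?_, ?_⟩, ⟨?_, ?_⟩⟩ <;> linarith [h1.1, h1.2, h2.1, h2.2]
    · intro i
      simp only [hl, hu]
      have := le_max_left (a i + (YZ j i : ℝ)) (a' i + YZ k i)
      have := min_le_left (a i + (YZ j i : ℝ) + 1) (a' i + YZ k i + 1)
      linarith

end Pool.Agent.H772R3.GabPair
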