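import Mathlib

set_option autoImplicit false

/-!
A Jordan algebra `F ⊕ V ⊕ I0 ⊕ I1` built from bilinear data.
-/

namespace Pool.Agent.H772R3.JordanData

universe u

/-- The bilinear data. -/
structure Data (F V I0 I1 : Type u) [Field F] [AddCommGroup V] [Module F V] [AddCommGroup I0]
    [Module F I0] [AddCommGroup I1] [Module F I1] where
  /-- a symmetric form -/
  B : V →ₗ[F] V →ₗ[F] F
  /-- action on `I0` -/
  ε : V →ₗ[F] I0 →ₗ[F] I1
  /-- action on `I1` -/
  δ : V →ₗ[F] I1 →ₗ[F] I0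
  /-- product on `I1` -/
  m : I1 →ₗ[F] I1 →ₗ[F] I0
  B_symm : ∀ v w, B v w = B w v
  m_symm : ∀ b c, m b c = m c b
  A1 : ∀ v w b, δ v (ε w (δ v b)) = B v w • δ v b
  A2 : ∀ v w b, δ v (ε w (m b b)) + (2 : F) • m (ε w (δ v b)) b = B v w • m b b
  A3 : ∀ w b, m (ε w (m b b)) b = 0
  A4 : ∀ v w a, m (ε v a) (ε w a) = 0
  A5 : ∀ v a c, m (ε v a) (ε v c) = 0
  A6 : ∀ v w a, ε v (δ w (ε v a)) = B v w • ε v a
  A7 : ∀ v a d, ε v (m (ε v a) d) = 0

variable {F V I0 I1 : Type u} [Field F] [AddCommGroup V] [Module F V] [AddCommGroup I0]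
    [Module F I0] [AddCommGroup I1] [Module F I1]

/-- The algebra `F ⊕ V ⊕ I0 ⊕ I1`. -/
@[ext] structure J (D : Data F V I0 I1) : Type u where
  /-- scalar part -/
  r : F
  /-- vector part -/
  v : V
  /-- even part -/
  a : I0
  /-- odd part -/
  b : I1

namespace J

variable {D : Data F V I0 I1}

/-- coordinates -/
def toProd (x : J D) : F × V × I0 × I1 := (x.r, x.v, x.a, x.b)

lemma toProd_injective : Function.Injective (toProd (D := D)) := by
  intro x y h
  simp only [toProd, Prod.mk.injEq] at h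
  obtain ⟨h1, h2, h3, h4⟩ := h
  ext1 <;> assumption

instance : Zero (J D) := ⟨⟨0, 0, 0, 0⟩⟩
instance : Add (J D) := ⟨fun x y => ⟨x.r + y.r, x.v + y.v, x.a + y.a, x.b + y.b⟩⟩
instance : Neg (J D) := ⟨fun x => ⟨-x.r, -x.v, -x.a, -x.b⟩⟩
instance : Sub (J D) := ⟨fun x y => ⟨x.r - y.r, x.v - y.v, x.a - y.a, x.b - y.b⟩⟩
instance : SMul ℕ (J D) := ⟨fun n x => ⟨n • x.r, n • x.v, n • x.a, n • x.b⟩⟩
instance : SMul ℤ (J D) := ⟨fun n x => ⟨n • x.r, n • x.v, n • x.a, n • x.b⟩⟩
instance : SMul F (J D) := ⟨fun n x => ⟨n • x.r, n • x.v, n • x.a, n • x.b⟩⟩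

instance : AddCommGroup (J D) :=
  toProd_injective.addCommGroup toProd rfl (fun _ _ => rfl) (fun _ => rfl) (fun _ _ => rfl)
    (fun _ _ => rfl) (fun _ _ => rfl)

/-- coordinates as an additive map -/
def toProdHom : J D →+ F × V × I0 × I1 where
  toFun := toProd
  map_zero' := rfl
  map_add' _ _ := rfl

instance : Module F (J D) :=
  toProd_injective.module F toProdHom (fun _ _ => rfl)

instance : Mul (J D) where
  mul x y := ⟨x.r * y.r + D.B x.v y.v, x.r • y.v + y.r • x.v,
    x.r • y.a + y.r • x.a + D.δ x.v y.b + D.δ y.v x.b + D.m x.b y.b,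
    x.r • y.b + y.r • x.b + D.ε x.v y.a + D.ε y.v x.a⟩

lemma mul_def (x y : J D) : x * y = ⟨x.r * y.r + D.B x.v y.v, x.r • y.v + y.r • x.v,
    x.r • y.a + y.r • x.a + D.δ x.v y.b + D.δ y.v x.b + D.m x.b y.b,
    x.r • y.b + y.r • x.b + D.ε x.v y.a + D.ε y.v x.a⟩ := rfl

lemma add_def (x y : J D) : x + y = ⟨x.r + y.r, x.v + y.v, x.a + y.a, x.b + y.b⟩ := rfl
lemma zero_def : (0 : J D) = ⟨0, 0, 0, 0⟩ := rfl
lemma smul_def (n : F) (x : J D) : n • x = ⟨n • x.r, n • x.v, n • x.a, n • x.b⟩ := rfl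

lemma mul_comm' (x y : J D) : x * y = y * x := by
  rw [mul_def, mul_def, D.B_symm x.v y.v, D.m_symm x.b y.b]
  simp only [mk.injEq]
  refine ⟨by ring, by abel, by abel, by abel⟩

lemma add_mul' (x y z : J D) : (x + y) * z = x * z + y * z := by
  rw [mul_def, mul_def, mul_def]
  simp only [add_def, mk.injEq, map_add, LinearMap.add_apply]
  refine ⟨by ring, by module, by module, by module⟩

instance : NonUnitalNonAssocRing (J D) where
  left_distrib x y z := by rw [mul_comm' x, add_mul', mul_comm' y x, mul_comm' z x]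
  right_distrib := add_mul'
  zero_mul x := by
    have h := add_mul' (0 : J D) 0 x
    rw [add_zero] at h
    exact left_eq_add.mp h
  mul_zero x := by
    have h := add_mul' (0 : J D) 0 x
    rw [add_zero] at h
    rw [mul_comm']
    exact left_eq_add.mp h

lemma smul_mul' (n : F) (x y : J D) : (n • x) * y = n • (x * y) := by
  rw [mul_def, mul_def]
  simp only [smul_def, mk.injEq, map_smul, LinearMap.smul_apply, smul_eq_mul]
  refine ⟨by ring, by module, by module, by module⟩

instance : IsScalarTower F (J D) (J D) := ⟨fun n x y => smul_mul' n x y⟩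

instance : SMulCommClass F (J D) (J D) := ⟨fun n x y => by
  rw [smul_eq_mul, smul_eq_mul, mul_comm' x (n • y), smul_mul', mul_comm']⟩

theorem jordan (x y : J D) : ((x * x) * y) * x = (x * x) * (y * x) := by
  obtain ⟨r, v, a, b⟩ := x
  obtain ⟨s, w, c, d⟩ := y
  simp only [mul_def, mk.injEq, map_add, map_smul, LinearMap.add_apply, LinearMap.smul_apply,
    smul_add, smul_eq_mul]
  have hB := D.B_symm w v
  refine ⟨?_, ?_, ?_, ?_⟩
  · rw [hB]; ring
  · rw [hB]; module
  · have h1 := D.A1 v w b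
    have h2 := D.A2 v w b
    have h3 := D.A3 w b
    have h4 := D.A4 v w a
    have h5 := D.A5 v a c
    have e1 := D.m_symm d b
    have e2 := D.m_symm (D.ε w a) b
    have e3 := D.m_symm (D.ε v c) b
    have e4 := D.m_symm (D.ε v a) d
    rw [hB]
    simp only [h1, h3, h4, h5, e1, e2, e3, add_zero]
    linear_combination (norm := module) h2
  · have h6 := D.A6 v w a
    have h7 := D.A7 v a d
    have e1 := D.m_symm d b
    rw [hB]
    simp only [h6, h7, e1, add_zero]
    module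

end J

end Pool.Agent.H772R3.JordanData
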