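import Pool.Agent.H772R3.Ext
import Pool.Agent.H772R3.JordanData

set_option autoImplicit false

/-!
The data: `V` with an orthonormal basis `ξ 0, ξ 1, ...`, `I0` and `I1` the even and odd parts of
`Λ(V) ⊗ L`, `L` the three-dimensional cross product algebra.
-/

namespace Pool.Agent.H772R3.JordanModel

open CliffordAlgebra Pool.Agent.H772R3.Ext Pool.Agent.H772R3.JordanData

universe u

variable (F : Type u) [Field F]

/-- The space with basis `ξ 0, ξ 1, ...`. -/
abbrev V : Type u := ℕ →₀ F

/-- The form with orthonormal basis `ξ 0, ξ 1, ...`. -/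
noncomputable def form : V F →ₗ[F] V F →ₗ[F] F :=
  Finsupp.linearCombination F (fun i : ℕ => (Finsupp.lapply i : V F →ₗ[F] F))

/-- even part of `Λ ⊗ L` -/
abbrev I0 : Type u := Fin 3 → E0 F (V F)
/-- odd part of `Λ ⊗ L` -/
abbrev I1 : Type u := Fin 3 → E1 F (V F)

variable {F}

lemma form_single (i j : ℕ) (a b : F) :
    form F (Finsupp.single i a) (Finsupp.single j b) = if i = j then a * b else 0 := by
  simp only [form, Finsupp.linearCombination_single, LinearMap.smul_apply, Finsupp.lapply_apply,
    Finsupp.single_apply, smul_eq_mul]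
  by_cases h : i = j
  · simp [h]
  · simp [h, Ne.symm h]

lemma form_symm (v w : V F) : form F v w = form F w v := by
  induction v using Finsupp.induction_linear with
  | zero => simp
  | add f g hf hg => simp [hf, hg]
  | single i a =>
    induction w using Finsupp.induction_linear with
    | zero => simp
    | add f g hf hg => simp [hf, hg]
    | single j b =>
      rw [form_single, form_single]
      by_cases h : i = j
      · simp [h, mul_comm]
      · simp [h, Ne.symm h]

/-- exterior multiplication -/
noncomputable def εm : V F →ₗ[F] I0 F →ₗ[F] I1 F :=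
  LinearMap.mk₂ F (fun v a i => ⟨ι' v * (a i : Λ F (V F)), ι_mul_even v (a i).2⟩)
    (by intro v w a; funext i; ext; simp [add_mul])
    (by intro c v a; funext i; ext; simp)
    (by intro v a b; funext i; ext; simp [mul_add])
    (by intro c v a; funext i; ext; simp)

/-- contraction -/
noncomputable def δm : V F →ₗ[F] I1 F →ₗ[F] I0 F :=
  LinearMap.mk₂ F (fun v b i => ⟨ct (form F v) (b i : Λ F (V F)), ct_odd _ (b i).2⟩)
    (by
      intro v w a; funext i; ext
      change contractLeft (form F (v + w)) _ = _
      rw [map_add, map_add, LinearMap.add_apply]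
      rfl)
    (by
      intro c v a; funext i; ext
      change contractLeft (form F (c • v)) _ = _
      rw [map_smul, map_smul, LinearMap.smul_apply]
      rfl)
    (by intro v a b; funext i; ext; simp)
    (by intro c v a; funext i; ext; simp)

/-- the product of odd elements -/
noncomputable def mm : I1 F →ₗ[F] I1 F →ₗ[F] I0 F :=
  LinearMap.mk₂ F (fun b c i => ⟨(b (i + 1) : Λ F (V F)) * c (i + 2) - b (i + 2) * c (i + 1),
      Submodule.sub_mem _ (odd_mul_odd (b _).2 (c _).2) (odd_mul_odd (b _).2 (c _).2)⟩)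
    (by intro v w a; funext i; ext; simp [add_mul]; abel)
    (by intro c v a; funext i; ext; simp [smul_sub])
    (by intro v a b; funext i; ext; simp [mul_add]; abel)
    (by intro c v a; funext i; ext; simp [smul_sub])

lemma εm_apply (v : V F) (a : I0 F) (i : Fin 3) :
    ((εm v a i : E1 F (V F)) : Λ F (V F)) = ι' v * (a i : Λ F (V F)) := rfl

lemma δm_apply (v : V F) (b : I1 F) (i : Fin 3) :
    ((δm v b i : E0 F (V F)) : Λ F (V F)) = ct (form F v) (b i : Λ F (V F)) := rfl

lemma mm_apply (b c : I1 F) (i : Fin 3) : ((mm b c i : E0 F (V F)) : Λ F (V F)) =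
    (b (i + 1) : Λ F (V F)) * c (i + 2) - b (i + 2) * c (i + 1) := rfl

lemma ct_ι_mul (d : Module.Dual F (V F)) (v : V F) (x : Λ F (V F)) :
    ct d (ι' v * x) = d v • x - ι' v * ct d x := contractLeft_ι_mul _ _ _

lemma ct_ct (d : Module.Dual F (V F)) (x : Λ F (V F)) : ct d (ct d x) = 0 :=
  contractLeft_contractLeft _ _

lemma ct_sub (d : Module.Dual F (V F)) (x y : Λ F (V F)) : ct d (x - y) = ct d x - ct d y :=
  map_sub _ _ _

/-- The data. -/
noncomputable def data : Data F (V F) (I0 F) (I1 F) where
  B := form F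
  ε := εm
  δ := δm
  m := mm
  B_symm := form_symm
  m_symm b c := by
    funext i; ext
    rw [mm_apply, mm_apply, odd_anti (b (i + 1)).2 (c (i + 2)).2,
      odd_anti (b (i + 2)).2 (c (i + 1)).2]
    abel
  A1 v w b := by
    funext i; ext
    rw [δm_apply, εm_apply, δm_apply, ct_ι_mul, ct_ct, mul_zero, sub_zero]
    rfl
  A2 v w b := by
    funext i; ext
    have h0 : ∀ j k : Fin 3, ct (form F v) ((b j : Λ F (V F)) * b k) =
        ct (form F v) (b j : Λ F (V F)) * b k - ct (form F v) (b k : Λ F (V F)) * b j := by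
      intro j k
      rw [ct_mul, involute_eq_of_mem_odd (b j).2, neg_mul,
        ← even_comm (ct_odd (form F v) (b k).2) (b j : Λ F (V F)), ← sub_eq_add_neg]
    have e : ((δm v (εm w (mm b b)) + (2 : F) • mm (εm w (δm v b)) b) i : E0 F (V F)) =
        δm v (εm w (mm b b)) i + (2 : F) • mm (εm w (δm v b)) b i := rfl
    have e' : ((form F v w • mm b b) i : E0 F (V F)) = form F v w • mm b b i := rfl
    rw [e, e', Submodule.coe_add, Submodule.coe_smul, Submodule.coe_smul, δm_apply, εm_apply,
      mm_apply, mm_apply, εm_apply, εm_apply, δm_apply, δm_apply, ct_ι_mul, ct_sub, h0, h0]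
    simp only [mul_sub, ← mul_assoc]
    module
  A3 w b := by
    funext i; ext
    rw [mm_apply, εm_apply, εm_apply, mm_apply, mm_apply]
    have h1 : i + 1 + 1 = i + 2 := by fin_cases i <;> rfl
    have h2 : i + 1 + 2 = i := by fin_cases i <;> rfl
    have h3 : i + 2 + 1 = i := by fin_cases i <;> rfl
    have h4 : i + 2 + 2 = i + 1 := by fin_cases i <;> rfl
    rw [h1, h2, h3, h4]
    have key : ∀ j k : Fin 3, ((b j : Λ F (V F)) * b k - b k * b j) * b j = 0 := by
      intro j k
      rw [sub_mul, mul_assoc, mul_assoc, odd_sq (b j).2, mul_zero, sub_zero,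
        odd_anti (b k).2 (b j).2, mul_neg, ← mul_assoc, odd_sq (b j).2, zero_mul, neg_zero]
    have key2 : ∀ j k : Fin 3, ((b k : Λ F (V F)) * b j - b j * b k) * b j = 0 := by
      intro j k
      rw [← neg_sub, neg_mul, key, neg_zero]
    rw [mul_assoc, key, mul_assoc, key2, mul_zero, sub_zero]
    rfl
  A4 v w a := by
    funext i; ext
    rw [mm_apply]
    simp only [εm_apply]
    have key : ∀ j k : Fin 3, (ι' v * (a j : Λ F (V F))) * (ι' w * (a k : Λ F (V F))) =
        ι' v * ι' w * ((a j : Λ F (V F)) * (a k : Λ F (V F))) := by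
      intro j k
      rw [mul_assoc, ← mul_assoc (a j : Λ F (V F)) (ι' w), even_comm (a j).2 (ι' w)]
      simp only [mul_assoc]
    rw [key, key, even_comm (a (i + 2)).2 (a (i + 1)).1, sub_self]
    rfl
  A5 v a c := by
    funext i; ext
    rw [mm_apply]
    simp only [εm_apply]
    have key : ∀ j k : Fin 3, (ι' v * (a j : Λ F (V F))) * (ι' v * (c k : Λ F (V F))) = 0 := by
      intro j k
      rw [mul_assoc, ← mul_assoc (a j : Λ F (V F)) (ι' v), even_comm (a j).2 (ι' v), mul_assoc,
        ← mul_assoc (ι' v : Λ F (V F)) (ι' v), ι_sq, zero_mul]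
    rw [key, key, sub_zero]
    rfl
  A6 v w a := by
    funext i; ext
    have e' : ((form F v w • εm v a) i : E1 F (V F)) = form F v w • εm v a i := rfl
    rw [e', Submodule.coe_smul, εm_apply, δm_apply, εm_apply, ct_ι_mul, mul_sub, ← mul_assoc,
      ι_sq, zero_mul, sub_zero, mul_smul_comm, form_symm]
  A7 v a d := by
    funext i; ext
    rw [εm_apply, mm_apply, εm_apply, εm_apply, mul_sub]
    simp only [← mul_assoc]
    rw [ι_sq]
    simp

end Pool.Agent.H772R3.JordanModel
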