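import Pool.Agent.H772R3.JordanModel

set_option autoImplicit false

/-!
The algebra of the model is semiprime, and has an ideal which is not semiprime.
-/

namespace Pool.Agent.H772R3.JordanModel

open CliffordAlgebra Pool.Agent.H772R3.Ext Pool.Agent.H772R3.JordanData

universe u

variable {F : Type u} [Field F]

/-- basis vectors in the exterior algebra -/
noncomputable def ξ (k : ℕ) : Λ F (V F) := ι' (Finsupp.single k 1)

/-- products of basis vectors -/
noncomputable def Ξ (l : List ℕ) : Λ F (V F) := (l.map ξ).prod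

/-- contraction with a basis vector -/
noncomputable def ck (k : ℕ) (x : Λ F (V F)) : Λ F (V F) := ct (form F (Finsupp.single k 1)) x

lemma ck_add (k : ℕ) (x y : Λ F (V F)) : ck k (x + y) = ck k x + ck k y := map_add _ _ _
lemma ck_smul (k : ℕ) (c : F) (x : Λ F (V F)) : ck k (c • x) = c • ck k x := map_smul _ _ _
lemma ck_neg (k : ℕ) (x : Λ F (V F)) : ck k (-x) = -ck k x := map_neg _ _
lemma ck_zero (k : ℕ) : ck k (0 : Λ F (V F)) = 0 := map_zero _
lemma ck_alg (k : ℕ) (c : F) : ck k (algebraMap F (Λ F (V F)) c) = 0 := by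
  rw [ck, ct, contractLeft_algebraMap]

lemma ck_ξ_same (k : ℕ) (x : Λ F (V F)) : ck k (ξ k * x) = x - ξ k * ck k x := by
  rw [ck, ξ, ct_ι_mul, form_single]
  simp [ck]

lemma ck_ξ_ne {k j : ℕ} (h : k ≠ j) (x : Λ F (V F)) : ck k (ξ j * x) = -(ξ j * ck k x) := by
  rw [ck, ξ, ct_ι_mul, form_single, if_neg h]
  simp [ck]

lemma Ξ_cons (k : ℕ) (l : List ℕ) : Ξ (F := F) (k :: l) = ξ k * Ξ l := by simp [Ξ]
lemma Ξ_nil : Ξ (F := F) [] = 1 := by simp [Ξ]
lemma Ξ_append (l l' : List ℕ) : Ξ (F := F) (l ++ l') = Ξ l * Ξ l' := by simp [Ξ]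

lemma ck_Ξ {k : ℕ} {l : List ℕ} (h : k ∉ l) (x : Λ F (V F)) :
    ck k (Ξ l * x) = (-1 : F) ^ l.length • (Ξ l * ck k x) := by
  induction l with
  | nil => simp [Ξ_nil]
  | cons j l ih =>
    rw [List.mem_cons, not_or] at h
    rw [Ξ_cons, mul_assoc, ck_ξ_ne h.1, ih h.2, List.length_cons, pow_succ, mul_smul_comm,
      mul_assoc]
    module

lemma ck_Ξ' {k : ℕ} {l : List ℕ} (h : k ∉ l) : ck k (Ξ (F := F) l) = 0 := by
  have h1 := ck_Ξ (F := F) h 1
  have h2 : ck k (1 : Λ F (V F)) = 0 := by
    have := ck_alg (F := F) k 1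
    rwa [map_one] at this
  rw [mul_one, h2, mul_zero, smul_zero] at h1
  exact h1

lemma Ξ_ne_zero {l : List ℕ} (h : l.Nodup) : Ξ (F := F) l ≠ 0 := by
  induction l with
  | nil => rw [Ξ_nil]; exact one_ne_zero
  | cons k l ih =>
    rw [List.nodup_cons] at h
    intro h0
    apply ih h.2
    have h1 := ck_ξ_same (F := F) k (Ξ l)
    rw [← Ξ_cons, h0, ck_zero, ck_Ξ' h.1, mul_zero, sub_zero] at h1
    exact h1.symm

/-- The span of the products of the first `N` basis vectors. -/
noncomputable def SN (F : Type u) [Field F] (N : ℕ) : Submodule F (Λ F (V F)) :=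
  Submodule.span F {x | ∃ l : List ℕ, (∀ k ∈ l, k < N) ∧ x = Ξ l}

lemma SN_mono {M N : ℕ} (h : M ≤ N) : SN F M ≤ SN F N :=
  Submodule.span_mono fun _ ⟨l, hl, hx⟩ => ⟨l, fun k hk => (hl k hk).trans_le h, hx⟩

lemma SN_ξ_mul {N j : ℕ} (hj : j < N) {x : Λ F (V F)} (hx : x ∈ SN F N) : ξ j * x ∈ SN F N := by
  induction hx using Submodule.span_induction with
  | mem x h =>
    obtain ⟨l, hl, rfl⟩ := h
    refine Submodule.subset_span ⟨j :: l, ?_, (Ξ_cons j l).symm⟩
    intro k hk
    rcases List.mem_cons.mp hk with rfl | hk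
    · exact hj
    · exact hl k hk
  | zero => rw [mul_zero]; exact Submodule.zero_mem _
  | add x y _ _ hx hy => rw [mul_add]; exact Submodule.add_mem _ hx hy
  | smul a x _ hx => rw [mul_smul_comm]; exact Submodule.smul_mem _ _ hx

lemma SN_decomp {N : ℕ} {x : Λ F (V F)} (hx : x ∈ SN F (N + 1)) :
    ∃ y z : Λ F (V F), y ∈ SN F N ∧ z ∈ SN F N ∧ x = y + ξ N * z := by
  induction hx using Submodule.span_induction with
  | mem x h =>
    obtain ⟨l, hl, rfl⟩ := h
    induction l with
    | nil =>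
      exact ⟨Ξ [], 0, Submodule.subset_span ⟨[], by simp, rfl⟩, Submodule.zero_mem _, by simp⟩
    | cons j l ih =>
      obtain ⟨y, z, hy, hz, h⟩ := ih fun k hk => hl k (List.mem_cons_of_mem _ hk)
      have hj : j < N + 1 := hl j List.mem_cons_self
      rcases Nat.lt_succ_iff_lt_or_eq.mp hj with hj | rfl
      · refine ⟨ξ j * y, -(ξ j * z), SN_ξ_mul hj hy, Submodule.neg_mem _ (SN_ξ_mul hj hz), ?_⟩
        rw [Ξ_cons, h, mul_add, ← mul_assoc, ξ, ξ, ι_swap, mul_neg, neg_mul, mul_assoc]
      · refine ⟨0, y, Submodule.zero_mem _, hy, ?_⟩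
        rw [Ξ_cons, h, mul_add, ← mul_assoc, ξ, ι_sq, zero_mul, add_zero, zero_add]
  | zero => exact ⟨0, 0, Submodule.zero_mem _, Submodule.zero_mem _, by simp⟩
  | add x x' _ _ ihx ihy =>
    obtain ⟨y, z, hy, hz, rfl⟩ := ihx
    obtain ⟨y', z', hy', hz', rfl⟩ := ihy
    exact ⟨y + y', z + z', Submodule.add_mem _ hy hy', Submodule.add_mem _ hz hz', by
      rw [mul_add]; abel⟩
  | smul a x _ hx =>
    obtain ⟨y, z, hy, hz, rfl⟩ := hx
    exact ⟨a • y, a • z, Submodule.smul_mem _ _ hy, Submodule.smul_mem _ _ hz, by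
      rw [smul_add, mul_smul_comm]⟩

lemma ck_SN {N k : ℕ} (hk : N ≤ k) {x : Λ F (V F)} (hx : x ∈ SN F N) : ck k x = 0 := by
  induction hx using Submodule.span_induction with
  | mem x h =>
    obtain ⟨l, hl, rfl⟩ := h
    exact ck_Ξ' fun h => absurd (hl k h) (by omega)
  | zero => exact ck_zero k
  | add x y _ _ hx hy => rw [ck_add, hx, hy, add_zero]
  | smul a x _ hx => rw [ck_smul, hx, smul_zero]

lemma SN_zero {x : Λ F (V F)} (hx : x ∈ SN F 0) : ∃ c : F, x = algebraMap F _ c := by
  induction hx using Submodule.span_induction with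
  | mem x h =>
    obtain ⟨l, hl, rfl⟩ := h
    cases l with
    | nil => exact ⟨1, by rw [Ξ_nil, map_one]⟩
    | cons j l => exact absurd (hl j List.mem_cons_self) (by omega)
  | zero => exact ⟨0, by simp⟩
  | add x y _ _ hx hy =>
    obtain ⟨a, rfl⟩ := hx
    obtain ⟨b, rfl⟩ := hy
    exact ⟨a + b, by simp⟩
  | smul a x _ hx =>
    obtain ⟨b, rfl⟩ := hx
    exact ⟨a * b, by rw [map_mul, Algebra.smul_def]⟩

lemma SN_mul {N : ℕ} {x y : Λ F (V F)} (hx : x ∈ SN F N) (hy : y ∈ SN F N) : x * y ∈ SN F N := by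
  induction hx using Submodule.span_induction with
  | mem x h =>
    obtain ⟨l, hl, rfl⟩ := h
    induction l with
    | nil => rw [Ξ_nil, one_mul]; exact hy
    | cons j l ih =>
      rw [Ξ_cons, mul_assoc]
      exact SN_ξ_mul (hl j List.mem_cons_self) (ih fun k hk => hl k (List.mem_cons_of_mem _ hk))
  | zero => rw [zero_mul]; exact Submodule.zero_mem _
  | add x x' _ _ hx hx' => rw [add_mul]; exact Submodule.add_mem _ hx hx'
  | smul a x _ hx => rw [smul_mul_assoc]; exact Submodule.smul_mem _ _ hx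

lemma exists_SN (x : Λ F (V F)) : ∃ N, x ∈ SN F N := by
  induction x using CliffordAlgebra.induction with
  | algebraMap r =>
    refine ⟨0, ?_⟩
    rw [Algebra.algebraMap_eq_smul_one]
    exact Submodule.smul_mem _ _ (Submodule.subset_span ⟨[], by simp, Ξ_nil.symm⟩)
  | ι v =>
    induction v using Finsupp.induction_linear with
    | zero => exact ⟨0, by rw [map_zero]; exact Submodule.zero_mem _⟩
    | add f g hf hg =>
      obtain ⟨M, hM⟩ := hf
      obtain ⟨N, hN⟩ := hg
      exact ⟨max M N, by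
        rw [map_add]
        exact Submodule.add_mem _ (SN_mono (le_max_left _ _) hM) (SN_mono (le_max_right _ _) hN)⟩
    | single i a =>
      refine ⟨i + 1, ?_⟩
      have h1 : (Finsupp.single i a : V F) = a • Finsupp.single i 1 := by simp
      rw [h1, map_smul]
      refine Submodule.smul_mem _ _ (Submodule.subset_span ⟨[i], by simp, ?_⟩)
      rw [Ξ_cons, Ξ_nil, mul_one]
      rfl
  | mul a b ha hb =>
    obtain ⟨M, hM⟩ := ha
    obtain ⟨N, hN⟩ := hb
    exact ⟨max M N, SN_mul (SN_mono (le_max_left _ _) hM) (SN_mono (le_max_right _ _) hN)⟩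
  | add a b ha hb =>
    obtain ⟨M, hM⟩ := ha
    obtain ⟨N, hN⟩ := hb
    exact ⟨max M N, Submodule.add_mem _ (SN_mono (le_max_left _ _) hM)
      (SN_mono (le_max_right _ _) hN)⟩

/-- Abstract form of the reduction: `P` is a predicate on triples, closed under negation and under
the moves. -/
theorem reduction (P : (Fin 3 → Λ F (V F)) → Prop)
    (hneg : ∀ f, P f → P (fun i => -f i))
    (hmove : ∀ f, P f → ∀ j k : ℕ, P (fun i => ξ k * ck j (f i))) :
    ∀ (N : ℕ) (f : Fin 3 → Λ F (V F)), (∀ i, f i ∈ SN F N) → f ≠ 0 →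
      ∃ l : Fin 3 → F, l ≠ 0 ∧ ∃ p : ℕ, ∀ K0 : List ℕ, (∀ k ∈ K0, N ≤ k) →
        P (fun i => Ξ K0 * f i) → ∀ K1 : List ℕ, K1.length = p → (∀ k ∈ K1, N ≤ k) →
          P (fun i => Ξ (K1 ++ K0) * algebraMap F _ (l i)) := by
  intro N
  induction N with
  | zero =>
    intro f hf hne
    choose l hl using fun i => SN_zero (hf i)
    refine ⟨l, ?_, 0, ?_⟩
    · rintro rfl
      apply hne
      funext i
      rw [hl i]; simp
    · intro K0 _ hP K1 hK1 _
      rw [List.length_eq_zero_iff] at hK1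
      subst hK1
      rw [List.nil_append]
      have : (fun i => Ξ K0 * algebraMap F (Λ F (V F)) (l i)) = fun i => Ξ K0 * f i := by
        funext i; rw [hl i]
      rw [this]
      exact hP
  | succ N ih =>
    intro f hf hne
    choose y z hy hz hyz using fun i => SN_decomp (hf i)
    by_cases hz0 : z = 0
    · have hfy : f = y := by
        funext i; rw [hyz i, hz0]; simp
      obtain ⟨l, hl, p, h⟩ := ih f (fun i => by rw [hfy]; exact hy i) hne
      exact ⟨l, hl, p, fun K0 hK0 hP K1 h1 h2 => h K0 (fun k hk => (Nat.le_succ N).trans (hK0 k hk))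
        hP K1 h1 (fun k hk => (Nat.le_succ N).trans (h2 k hk))⟩
    · obtain ⟨l, hl, p, h⟩ := ih z hz hz0
      refine ⟨l, hl, p + 1, fun K0 hK0 hP K1 h1 h2 => ?_⟩
      obtain ⟨K1', k, rfl⟩ : ∃ K1' k, K1 = K1' ++ [k] := by
        rcases List.eq_nil_or_concat K1 with rfl | ⟨K1', k, rfl⟩
        · simp at h1
        · exact ⟨K1', k, List.concat_eq_append⟩
      have hN : N ∉ K0 := fun hmem => absurd (hK0 N hmem) (by omega)
      have h3 := hmove _ hP N k
      have h4 : ∀ i, ξ k * ck N (Ξ K0 * f i) =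
          (-1 : F) ^ K0.length • (Ξ (k :: K0) * z i) := by
        intro i
        rw [ck_Ξ hN, hyz i, ck_add, ck_SN le_rfl (hy i), ck_ξ_same, ck_SN le_rfl (hz i), mul_zero,
          sub_zero, zero_add, mul_smul_comm, Ξ_cons, mul_assoc]
      have h5 : P (fun i => Ξ (k :: K0) * z i) := by
        rcases neg_one_pow_eq_or F K0.length with he | he
        · have : (fun i => ξ k * ck N (Ξ K0 * f i)) = fun i => Ξ (k :: K0) * z i := by
            funext i; rw [h4, he, one_smul]
          rw [this] at h3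
          exact h3
        · have := hneg _ h3
          have e : (fun i => -(ξ k * ck N (Ξ K0 * f i))) = fun i => Ξ (k :: K0) * z i := by
            funext i; rw [h4, he, neg_smul, one_smul, neg_neg]
          rw [e] at this
          exact this
      have hk : N + 1 ≤ k := h2 k (by simp)
      have h6 := h (k :: K0) (fun j hj => by
        rcases List.mem_cons.mp hj with rfl | hj
        · omega
        · exact (Nat.le_succ N).trans (hK0 j hj)) h5 K1' (by simpa using h1)
        (fun j hj => (Nat.le_succ N).trans (h2 j (by simp [hj])))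
      simpa using h6

/-! ### The Jordan algebra -/

/-- The Jordan algebra. -/
abbrev JJ (F : Type u) [Field F] : Type u := J (data (F := F))

/-- elements of `V` -/
noncomputable def vec (v : V F) : JJ F := ⟨0, v, 0, 0⟩
/-- elements of `I0` -/
noncomputable def ev (a : I0 F) : JJ F := ⟨0, 0, a, 0⟩
/-- elements of `I1` -/
noncomputable def od (b : I1 F) : JJ F := ⟨0, 0, 0, b⟩

lemma data_B : (data (F := F)).B = form F := rfl
lemma data_ε : (data (F := F)).ε = εm := rfl
lemma data_δ : (data (F := F)).δ = δm := rfl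
lemma data_m : (data (F := F)).m = mm := rfl

lemma mul_ev (x : JJ F) (c : I0 F) : x * ev c = ⟨0, 0, x.r • c, εm x.v c⟩ := by
  simp [J.mul_def, ev, data_ε]

lemma ab_mul_vec (a : I0 F) (b : I1 F) (w : V F) :
    (⟨0, 0, a, b⟩ : JJ F) * vec w = ⟨0, 0, δm w b, εm w a⟩ := by
  simp [J.mul_def, vec, data_ε, data_δ]

lemma od_mul_od (b c : I1 F) : od b * od c = ev (mm b c) := by
  simp [J.mul_def, od, ev, data_m]

lemma scal_mul_od (c : F) (b : I1 F) : (⟨c, 0, 0, 0⟩ : JJ F) * od b = od (c • b) := by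
  simp [J.mul_def, od]

section Semi

variable {M : AddSubgroup (JJ F)} (hM : ∀ r : JJ F, ∀ x ∈ M, r * x ∈ M ∧ x * r ∈ M)

/-- triples of elements of the exterior algebra which give odd elements of `M` -/
def PM (M : AddSubgroup (JJ F)) (f : Fin 3 → Λ F (V F)) : Prop :=
  ∃ b : I1 F, od b ∈ M ∧ ∀ i, (b i : Λ F (V F)) = f i

include hM in
lemma PM_move (f : Fin 3 → Λ F (V F)) (hf : PM M f) (j k : ℕ) :
    PM M (fun i => ξ k * ck j (f i)) := by
  obtain ⟨b, hb, hbf⟩ := hf
  have h1 := (hM (vec (Finsupp.single j 1)) _ hb).2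
  rw [od, ab_mul_vec] at h1
  have h2 := (hM (vec (Finsupp.single k 1)) _ h1).2
  rw [ab_mul_vec, map_zero, map_zero] at h2
  refine ⟨_, h2, fun i => ?_⟩
  rw [εm_apply, δm_apply, hbf]
  rfl

lemma PM_neg (f : Fin 3 → Λ F (V F)) (hf : PM M f) : PM M (fun i => -f i) := by
  obtain ⟨b, hb, hbf⟩ := hf
  refine ⟨-b, ?_, fun i => ?_⟩
  · have := M.neg_mem hb
    have e : -od b = od (-b) := by
      change (⟨-0, -0, -0, -b⟩ : JJ F) = ⟨0, 0, 0, -b⟩
      simp
    rwa [e] at this
  · have := hbf i
    simp only [Pi.neg_apply, Submodule.coe_neg, this]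

include hM in
lemma exists_od {x : JJ F} (hx : x ∈ M) (hne : x ≠ 0) : ∃ b : I1 F, b ≠ 0 ∧ od b ∈ M := by
  -- an element of the ideal `I`
  have h1 : ∃ (a : I0 F) (b : I1 F), (⟨0, 0, a, b⟩ : JJ F) ∈ M ∧ (a ≠ 0 ∨ b ≠ 0) := by
    by_cases hr : x.r = 0
    · by_cases hv : x.v = 0
      · refine ⟨x.a, x.b, ?_, ?_⟩
        · have : x = ⟨0, 0, x.a, x.b⟩ := by
            ext1
            · exact hr
            · exact hv
            · rfl
            · rfl
          rwa [← this]
        · by_contra h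
          push Not at h
          apply hne
          ext1
          · exact hr
          · exact hv
          · exact h.1
          · exact h.2
      · let c : I0 F := fun _ => ⟨1, by
          have := algebraMap_even (F := F) (V := V F) 1
          rwa [map_one] at this⟩
        have h2 := (hM (ev c) x hx).2
        rw [mul_ev] at h2
        refine ⟨_, _, h2, Or.inr ?_⟩
        intro h3
        have h4 := congrArg (fun b : I1 F => ((b 0 : E1 F (V F)) : Λ F (V F))) h3
        simp only [εm_apply, c, mul_one] at h4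
        exact hv (ExteriorAlgebra.ι_eq_zero_iff _ |>.mp h4)
    · let c : I0 F := fun _ => ⟨1, by
          have := algebraMap_even (F := F) (V := V F) 1
          rwa [map_one] at this⟩
      have h2 := (hM (ev c) x hx).2
      rw [mul_ev] at h2
      refine ⟨_, _, h2, Or.inl ?_⟩
      intro h3
      have h4 := congrArg (fun b : I0 F => ((b 0 : E0 F (V F)) : Λ F (V F))) h3
      have h5 : x.r • (1 : Λ F (V F)) = 0 := h4
      rcases smul_eq_zero.mp h5 with h | h
      · exact hr h
      · exact one_ne_zero h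
  obtain ⟨a, b, hab, hne⟩ := h1
  by_cases ha : a = 0
  · refine ⟨b, ?_, ?_⟩
    · rcases hne with h | h
      · exact absurd ha h
      · exact h
    · rw [ha] at hab
      exact hab
  · obtain ⟨i, hi⟩ := Function.ne_iff.mp ha
    choose N1 hN1 using fun i => exists_SN ((a i : E0 F (V F)) : Λ F (V F))
    choose N2 hN2 using fun i => exists_SN ((b i : E1 F (V F)) : Λ F (V F))
    let N := Finset.univ.sup N1 + Finset.univ.sup N2
    have h1 : ∀ i, ((a i : E0 F (V F)) : Λ F (V F)) ∈ SN F N := fun i =>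
      SN_mono ((Finset.le_sup (f := N1) (Finset.mem_univ i)).trans (Nat.le_add_right _ _)) (hN1 i)
    have h2 : ∀ i, ((b i : E1 F (V F)) : Λ F (V F)) ∈ SN F N := fun i =>
      SN_mono ((Finset.le_sup (f := N2) (Finset.mem_univ i)).trans (Nat.le_add_left _ _)) (hN2 i)
    have h3 := (hM (vec (Finsupp.single N 1)) _ hab).2
    rw [ab_mul_vec] at h3
    have h4 : δm (Finsupp.single N 1) b = 0 := by
      funext i; ext
      rw [δm_apply]
      exact ck_SN le_rfl (h2 i)
    rw [h4] at h3
    refine ⟨_, ?_, h3⟩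
    intro h5
    have h6 := congrArg (fun b : I1 F => ((b i : E1 F (V F)) : Λ F (V F))) h5
    have h7 : ξ N * ((a i : E0 F (V F)) : Λ F (V F)) = 0 := h6
    have h8 := ck_ξ_same N ((a i : E0 F (V F)) : Λ F (V F))
    rw [h7, ck_zero, ck_SN le_rfl (h1 i), mul_zero, sub_zero] at h8
    exact hi (Subtype.ext h8.symm)

/-- cross product -/
def cr (l m : Fin 3 → F) : Fin 3 → F := fun i => l (i + 1) * m (i + 2) - l (i + 2) * m (i + 1)

lemma cr_cr {l : Fin 3 → F} (hl : l ≠ 0) : ∃ m n : Fin 3 → F, cr (cr l m) (cr l n) ≠ 0 := by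
  obtain ⟨i, hi⟩ := Function.ne_iff.mp hl
  refine ⟨fun j => if j = i + 1 then 1 else 0, fun j => if j = i + 2 then 1 else 0, ?_⟩
  intro h
  have h1 := congrFun h i
  apply hi
  fin_cases i <;> simp [cr] at h1 ⊢ <;> exact h1

lemma alg_mul_comm' (c : F) (x : Λ F (V F)) : algebraMap F _ c * x = c • x :=
  (Algebra.smul_def c x).symm

lemma mul_alg (c : F) (x : Λ F (V F)) : x * algebraMap F _ c = c • x := by
  rw [← Algebra.commutes, Algebra.smul_def]

include hM in
lemma PM_bracket {K : List ℕ} {l : Fin 3 → F} (h : PM M (fun i => Ξ K * algebraMap F _ (l i)))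
    (m : Fin 3 → F) (s t : ℕ) :
    PM M (fun i => Ξ ([t] ++ K ++ [s]) * algebraMap F _ (cr l m i)) := by
  obtain ⟨b, hb, hbf⟩ := h
  let c : I1 F := fun i => ⟨m i • ξ s, Submodule.smul_mem _ _ (ι_mem_evenOdd_one _ _)⟩
  have h1 := (hM (od c) _ hb).2
  rw [od_mul_od] at h1
  have h2 := (hM (vec (Finsupp.single t 1)) _ h1).2
  rw [ev, ab_mul_vec, map_zero] at h2
  refine ⟨_, h2, fun i => ?_⟩
  rw [εm_apply, mm_apply]
  simp only [hbf, c, mul_alg, Ξ_append, Ξ_cons, Ξ_nil, mul_one, cr]
  simp only [smul_mul_assoc, mul_smul_comm, mul_sub, smul_smul, sub_smul, ξ, mul_assoc]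
  rw [mul_comm (l (i + 1)), mul_comm (l (i + 2))]

theorem semiprime (M : AddSubgroup (JJ F)) (hM : ∀ r : JJ F, ∀ x ∈ M, r * x ∈ M ∧ x * r ∈ M)
    (h0 : ∀ x ∈ M, ∀ y ∈ M, x * y = 0) : M = ⊥ := by
  by_contra hne
  obtain ⟨x, hx, hx0⟩ : ∃ x : JJ F, x ∈ M ∧ x ≠ 0 := by
    by_contra hcon
    push Not at hcon
    apply hne
    rw [eq_bot_iff]
    intro x hx
    exact hcon x hx
  obtain ⟨b, hb0, hb⟩ := exists_od hM hx hx0
  choose N1 hN1 using fun i => exists_SN ((b i : E1 F (V F)) : Λ F (V F))
  let N := Finset.univ.sup N1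
  have hN : ∀ i, ((b i : E1 F (V F)) : Λ F (V F)) ∈ SN F N := fun i =>
    SN_mono (Finset.le_sup (f := N1) (Finset.mem_univ i)) (hN1 i)
  obtain ⟨l, hl, p, h⟩ := reduction (PM M) PM_neg (PM_move hM) N
    (fun i => ((b i : E1 F (V F)) : Λ F (V F))) hN (by
      intro h
      apply hb0
      funext i; ext
      exact congrFun h i)
  have hK : ∀ K : List ℕ, K.length = p → (∀ k ∈ K, N ≤ k) →
      PM M (fun i => Ξ K * algebraMap F _ (l i)) := by
    intro K h1 h2
    have := h [] (by simp) ⟨b, hb, fun i => by rw [Ξ_nil]; exact (one_mul _).symm⟩ K h1 h2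
    rwa [List.append_nil] at this
  obtain ⟨m, n, hmn⟩ := cr_cr hl
  have X1 := PM_bracket hM (hK (List.range' N p) (by simp) (by simp [List.mem_range'_1]; omega))
    m (N + 2 * p) (N + 2 * p + 1)
  have X2 := PM_bracket hM (hK (List.range' (N + p) p) (by simp) (by
    simp [List.mem_range'_1]; omega)) n (N + 2 * p + 2) (N + 2 * p + 3)
  obtain ⟨b1, hb1, hf1⟩ := X1
  obtain ⟨b2, hb2, hf2⟩ := X2
  have h3 := h0 _ hb1 _ hb2
  rw [od_mul_od] at h3
  have h4 : mm b1 b2 = 0 := congrArg (fun x : JJ F => x.a) h3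
  apply hmn
  funext i
  have h5 := congrArg (fun a : I0 F => ((a i : E0 F (V F)) : Λ F (V F))) h4
  simp only [mm_apply, hf1, hf2, mul_alg] at h5
  have h6 : (cr (cr l m) (cr l n) i) •
      (Ξ (([N + 2 * p + 1] ++ List.range' N p ++ [N + 2 * p]) ++
        ([N + 2 * p + 3] ++ List.range' (N + p) p ++ [N + 2 * p + 2])) : Λ F (V F)) = 0 := by
    rw [Ξ_append]
    have h7 : ∀ (c d : F) (x y : Λ F (V F)), (c • x) * (d • y) = (c * d) • (x * y) := by
      intro c d x y
      rw [smul_mul_assoc, mul_smul_comm, smul_smul]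
    rw [h7, h7, ← sub_smul] at h5
    exact h5
  rcases smul_eq_zero.mp h6 with h7 | h7
  · exact h7
  · exfalso
    refine Ξ_ne_zero ?_ h7
    have r1 : (List.range' N p).Nodup := List.nodup_range'
    have r2 : (List.range' (N + p) p).Nodup := List.nodup_range'
    have m1 : ∀ x, x ∈ List.range' N p ↔ N ≤ x ∧ x < N + p := fun x => List.mem_range'_1
    have m2 : ∀ x, x ∈ List.range' (N + p) p ↔ N + p ≤ x ∧ x < N + p + p :=
      fun x => List.mem_range'_1
    generalize List.range' N p = L1 at *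
    generalize List.range' (N + p) p = L2 at *
    have d1 : ∀ x ∈ L1, x < N + p := fun x hx => ((m1 x).mp hx).2
    have d2 : ∀ x ∈ L2, N + p ≤ x ∧ x < N + p + p := fun x hx => (m2 x).mp hx
    rw [List.nodup_append]
    refine ⟨?_, ?_, ?_⟩
    · rw [List.nodup_append]
      refine ⟨?_, by simp, ?_⟩
      · rw [List.nodup_append]
        refine ⟨by simp, r1, ?_⟩
        intro a ha b hb hab
        have := d1 b hb
        simp only [List.mem_cons, List.not_mem_nil, or_false] at ha
        omega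
      · intro a ha b hb hab
        simp only [List.cons_append, List.nil_append, List.mem_cons, List.not_mem_nil,
          or_false] at ha hb
        rcases ha with ha | ha
        · omega
        · have := d1 a ha; omega
    · rw [List.nodup_append]
      refine ⟨?_, by simp, ?_⟩
      · rw [List.nodup_append]
        refine ⟨by simp, r2, ?_⟩
        intro a ha b hb hab
        have := d2 b hb
        simp only [List.mem_cons, List.not_mem_nil, or_false] at ha
        omega
      · intro a ha b hb hab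
        simp only [List.cons_append, List.nil_append, List.mem_cons, List.not_mem_nil,
          or_false] at ha hb
        rcases ha with ha | ha
        · omega
        · have := d2 a ha; omega
    · intro a ha b hb hab
      simp only [List.cons_append, List.nil_append, List.mem_append, List.mem_cons,
        List.not_mem_nil, or_false] at ha hb
      rcases ha with ha | ha | ha <;> rcases hb with hb | hb | hb
      · omega
      · have := d2 b hb; omega
      · omega
      · have := d1 a ha; omega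
      · have := d1 a ha; have := d2 b hb; omega
      · have := d1 a ha; omega
      · omega
      · have := d2 b hb; omega
      · omega

end Semi

end Pool.Agent.H772R3.JordanModel
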