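import Mathlib

set_option autoImplicit false

/-!
Every right alternative ring `A` embeds in a right alternative ring `D A` such that no nonzero
element of the image of `A` lies in the right nucleus, the left nucleus or the alternative centre
of `D A`.
-/

namespace Pool.Agent.H772R3.RightAlt

universe u

/-- `A` is right alternative: `(x y) y = x (y y)` for all `x, y`. -/
def IsRightAlternative (A : Type u) [NonUnitalNonAssocRing A] : Prop :=
  ∀ x y : A, (x * y) * y = x * (y * y)

/-- The right associative centre (right nucleus). -/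
def rightNucleus (A : Type u) [NonUnitalNonAssocRing A] : Set A :=
  {n | ∀ x y : A, (x * y) * n - x * (y * n) = 0}

/-- The left associative centre (left nucleus). -/
def leftNucleus (A : Type u) [NonUnitalNonAssocRing A] : Set A :=
  {n | ∀ x y : A, (n * x) * y - n * (x * y) = 0}

/-- The alternative centre: all `a` with `(a,x,y) = -(x,a,y) = (x,y,a)` for all `x, y`. -/
def altCenter (A : Type u) [NonUnitalNonAssocRing A] : Set A :=
  {a | ∀ x y : A, (a * x) * y - a * (x * y) = -((x * a) * y - x * (a * y)) ∧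
    -((x * a) * y - x * (a * y)) = (x * y) * a - x * (y * a)}

/-- A polynomial: an element of the free nonassociative ring on countably many generators. -/
abbrev Poly : Type := FreeNonUnitalNonAssocAlgebra ℤ ℕ

/-- The value of a polynomial. -/
noncomputable def value {A : Type u} [NonUnitalNonAssocRing A] (f : Poly) (a : ℕ → A) : A :=
  FreeNonUnitalNonAssocAlgebra.lift ℤ a f

/-- `f` is nontrivial: it is not an identity of all right alternative rings. -/
def Nontrivial (f : Poly) : Prop :=
  ∃ (A : Type u) (_ : NonUnitalNonAssocRing A), IsRightAlternative A ∧ ∃ a : ℕ → A, value f a ≠ 0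

/-- `f` takes values only in `S` (a subset attached to each ring). -/
def TakesValuesIn (S : ∀ (A : Type u) [NonUnitalNonAssocRing A], Set A) (f : Poly) : Prop :=
  ∀ (A : Type u) [NonUnitalNonAssocRing A], IsRightAlternative A →
    ∀ a : ℕ → A, value f a ∈ S A

/-! ### The construction -/

variable (A : Type u) [NonUnitalNonAssocRing A]

/-- `A` with a unit adjoined, as an additive group. -/
abbrev M : Type u := ℤ × A

variable {A}

/-- Right multiplication by `a` on `ℤ × A`. -/
def T (a : A) : M A →+ M A where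
  toFun m := (0, m.1 • a + m.2 * a)
  map_zero' := by simp
  map_add' m m' := by
    ext
    · simp
    · simp [add_smul, add_mul]; abel

lemma T_apply (a : A) (m : M A) : T a m = (0, m.1 • a + m.2 * a) := rfl

lemma T_add (a b : A) : T (a + b) = T a + T b := by
  ext m <;> simp [T_apply, mul_add]
  abel

lemma T_zero : T (0 : A) = 0 := by
  ext m <;> simp [T_apply]

lemma T_T (h : IsRightAlternative A) (a : A) (m : M A) : T a (T a m) = T (a * a) m := by
  simp only [T_apply]
  ext
  · rfl
  · simp [add_mul, h m.2 a, smul_mul_assoc]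

variable (A)

/-- The big ring: `A`, two copies of the additive maps `M → M`, the integers and three copies of
`M = ℤ × A`. -/
@[ext] structure D : Type u where
  /-- component in `A` -/
  a : A
  /-- component in the additive maps -/
  v : M A →+ M A
  /-- integer component -/
  c : ℤ
  /-- second component in the additive maps -/
  w : M A →+ M A
  /-- first module component -/
  m1 : M A
  /-- second module component -/
  m0 : M A
  /-- third module component -/
  m2 : M A

variable {A}

namespace D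

/-- coordinates -/
def toProd (x : D A) : A × (M A →+ M A) × ℤ × (M A →+ M A) × M A × M A × M A :=
  (x.a, x.v, x.c, x.w, x.m1, x.m0, x.m2)

lemma toProd_injective : Function.Injective (toProd (A := A)) := by
  intro x y h
  simp only [toProd, Prod.mk.injEq] at h
  obtain ⟨h1, h2, h3, h4, h5, h6, h7⟩ := h
  ext1 <;> assumption

instance : Zero (D A) := ⟨⟨0, 0, 0, 0, 0, 0, 0⟩⟩
instance : Add (D A) := ⟨fun x y => ⟨x.a + y.a, x.v + y.v, x.c + y.c, x.w + y.w, x.m1 + y.m1,
  x.m0 + y.m0, x.m2 + y.m2⟩⟩
instance : Neg (D A) := ⟨fun x => ⟨-x.a, -x.v, -x.c, -x.w, -x.m1, -x.m0, -x.m2⟩⟩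
instance : Sub (D A) := ⟨fun x y => ⟨x.a - y.a, x.v - y.v, x.c - y.c, x.w - y.w, x.m1 - y.m1,
  x.m0 - y.m0, x.m2 - y.m2⟩⟩
instance : SMul ℕ (D A) := ⟨fun n x => ⟨n • x.a, n • x.v, n • x.c, n • x.w, n • x.m1,
  n • x.m0, n • x.m2⟩⟩
instance : SMul ℤ (D A) := ⟨fun n x => ⟨n • x.a, n • x.v, n • x.c, n • x.w, n • x.m1,
  n • x.m0, n • x.m2⟩⟩

instance : AddCommGroup (D A) :=
  toProd_injective.addCommGroup toProd rfl (fun _ _ => rfl) (fun _ => rfl) (fun _ _ => rfl)
    (fun _ _ => rfl) (fun _ _ => rfl)

instance : Mul (D A) where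
  mul x y := ⟨x.a * y.a, x.v.comp (T y.a), 0, x.w.comp (T y.a) + x.c • y.v, T y.a x.m1,
    y.v x.m1, y.c • x.m0 + y.w x.m1⟩

lemma mul_def (x y : D A) : x * y = ⟨x.a * y.a, x.v.comp (T y.a), 0,
    x.w.comp (T y.a) + x.c • y.v, T y.a x.m1, y.v x.m1, y.c • x.m0 + y.w x.m1⟩ := rfl

lemma add_def (x y : D A) : x + y = ⟨x.a + y.a, x.v + y.v, x.c + y.c, x.w + y.w, x.m1 + y.m1,
  x.m0 + y.m0, x.m2 + y.m2⟩ := rfl

lemma sub_def (x y : D A) : x - y = ⟨x.a - y.a, x.v - y.v, x.c - y.c, x.w - y.w, x.m1 - y.m1,
  x.m0 - y.m0, x.m2 - y.m2⟩ := rfl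

lemma neg_def (x : D A) : -x = ⟨-x.a, -x.v, -x.c, -x.w, -x.m1, -x.m0, -x.m2⟩ := rfl

lemma zero_def : (0 : D A) = ⟨0, 0, 0, 0, 0, 0, 0⟩ := rfl

lemma comp_add' (f g h : M A →+ M A) : f.comp (g + h) = f.comp g + f.comp h := by
  ext m <;> simp

lemma add_comp' (f g h : M A →+ M A) : (f + g).comp h = f.comp h + g.comp h := by
  ext m <;> simp

instance : NonUnitalNonAssocRing (D A) where
  left_distrib x y z := by
    simp only [mul_def, add_def, mul_add, T_add, comp_add', add_smul, smul_add,
      AddMonoidHom.add_apply, add_zero, D.mk.injEq, true_and]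
    refine ⟨?_, ?_⟩ <;> abel
  right_distrib x y z := by
    simp only [mul_def, add_def, add_mul, add_comp', smul_add, map_add, add_zero,
      D.mk.injEq, true_and]
    refine ⟨?_, ?_⟩
    · rw [add_zsmul]; abel
    · abel
  zero_mul x := by
    simp [mul_def, zero_def]
  mul_zero x := by
    simp [mul_def, zero_def, T_zero]

end D

open D

theorem D_rightAlternative (h : IsRightAlternative A) : IsRightAlternative (D A) := by
  intro x y
  simp only [D.mul_def, D.mk.injEq, true_and]
  refine ⟨h _ _, ?_, ?_, ?_, ?_⟩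
  · refine AddMonoidHom.ext fun m => ?_
    simp only [AddMonoidHom.comp_apply, T_T h]
  · refine AddMonoidHom.ext fun m => ?_
    simp only [AddMonoidHom.comp_apply, T_T h, AddMonoidHom.add_apply, zero_smul, add_zero,
      AddMonoidHom.coe_smul, Pi.smul_apply]
  · exact T_T h _ _
  · simp only [AddMonoidHom.comp_apply, AddMonoidHom.add_apply, zero_smul, zero_add,
      AddMonoidHom.coe_smul, Pi.smul_apply]
    exact ⟨trivial, add_comm _ _⟩

/-- The embedding of `A`. -/
def δ : A →ₙ+* D A where
  toFun a := ⟨a, 0, 0, 0, (0, a), 0, 0⟩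
  map_zero' := rfl
  map_add' a b := by
    simp [D.add_def]
  map_mul' a b := by
    simp [D.mul_def, T_apply]

lemma δ_apply (a : A) : δ a = ⟨a, 0, 0, 0, (0, a), 0, 0⟩ := rfl

/-- an auxiliary element of the big ring -/
def eb : D A := ⟨0, AddMonoidHom.id _, 0, 0, 0, 0, 0⟩
/-- an auxiliary element of the big ring -/
def ec : D A := ⟨0, 0, 1, 0, 0, 0, 0⟩
/-- an auxiliary element of the big ring -/
def e1 : D A := ⟨0, 0, 0, 0, (1, 0), 0, 0⟩

lemma left_assoc (n : A) : (δ n * eb) * ec - δ n * (eb * ec) = ⟨0, 0, 0, 0, 0, 0, (0, n)⟩ := by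
  simp [D.mul_def, D.sub_def, δ_apply, eb, ec, T_zero, T_apply]

lemma right_assoc (n : A) : (e1 * eb) * δ n - e1 * (eb * δ n) = ⟨0, 0, 0, 0, 0, -(0, n), 0⟩ := by
  simp [D.mul_def, D.sub_def, δ_apply, eb, e1, T_zero, T_apply]

lemma mid_assoc (n : A) : (δ n * e1) * eb - δ n * (e1 * eb) = 0 := by
  simp [D.mul_def, D.sub_def, δ_apply, eb, e1, T_zero, D.zero_def]

theorem not_mem_leftNucleus {n : A} (hn : n ≠ 0) : δ n ∉ leftNucleus (D A) := by
  intro h
  have := h eb ec
  rw [left_assoc] at this
  exact hn (congrArg (fun x : D A => x.m2.2) this)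

theorem not_mem_rightNucleus {n : A} (hn : n ≠ 0) : δ n ∉ rightNucleus (D A) := by
  intro h
  have := h e1 eb
  rw [right_assoc] at this
  exact hn (neg_eq_zero.mp (congrArg (fun x : D A => x.m0.2) this))

theorem not_mem_altCenter {n : A} (hn : n ≠ 0) : δ n ∉ altCenter (D A) := by
  intro h
  have h1 := (h e1 eb).1.trans (h e1 eb).2
  rw [mid_assoc, right_assoc] at h1
  exact hn (neg_eq_zero.mp (congrArg (fun x : D A => x.m0.2) h1).symm)

/-- Evaluation commutes with ring homomorphisms. -/
lemma value_map {B : Type u} [NonUnitalNonAssocRing B] (φ : A →ₙ+* B) (f : Poly) (a : ℕ → A) :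
    value f (fun i => φ (a i)) = φ (value f a) := by
  let ψ : A →ₙₐ[ℤ] B :=
    { φ with
      map_smul' := fun n x => by
        change φ (n • x) = n • φ x
        exact map_zsmul φ n x }
  have h : FreeNonUnitalNonAssocAlgebra.lift ℤ (fun i => φ (a i)) =
      ψ.comp (FreeNonUnitalNonAssocAlgebra.lift ℤ a) := by
    apply FreeNonUnitalNonAssocAlgebra.hom_ext
    intro i
    simp [ψ]
  unfold value
  rw [h]
  rfl

/-- If `S` avoids the image of `A` in `D A` for all `A`, no nontrivial polynomial takes values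
only in `S`. -/
theorem main (S : ∀ (A : Type u) [NonUnitalNonAssocRing A], Set A)
    (hS : ∀ (A : Type u) [NonUnitalNonAssocRing A] (n : A), n ≠ 0 → δ n ∉ S (D A)) :
    ¬ ∃ f : Poly, Nontrivial.{u} f ∧ TakesValuesIn.{u} S f := by
  rintro ⟨f, ⟨A, _, hA, a, ha⟩, hf⟩
  apply hS A (value f a) ha
  rw [← value_map]
  exact hf (D A) (D_rightAlternative hA) _

end Pool.Agent.H772R3.RightAlt
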