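import Mathlib

set_option autoImplicit false

/-!
A variety of anticommutative algebras, all of whose members are locally nilpotent and solvable,
which is not finitely based (over every field).
-/

namespace Pool.Agent.H772R3.Specht

universe u

/-! ### Definitions used in the statement -/

section Defs

variable (F : Type u) [Field F]

/-- Polynomials: the free nonassociative algebra on countably many variables. -/
abbrev NAPoly : Type u := FreeNonUnitalNonAssocAlgebra F ℕ

variable {F}

/-- All polynomials in `S` are identities of the algebra `A`. -/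
def Satisfies (S : Set (NAPoly F)) (A : Type u) [NonUnitalNonAssocRing A] [Module F A]
    [IsScalarTower F A A] [SMulCommClass F A A] : Prop :=
  ∀ f ∈ S, ∀ a : ℕ → A, FreeNonUnitalNonAssocAlgebra.lift F a f = 0

/-- Noncommutative Jordan algebras: `(x,y,x) = 0` and `(x²,y,x) = 0`. -/
def IsNoncommutativeJordan (A : Type u) [NonUnitalNonAssocRing A] : Prop :=
  ∀ x y : A, (x * y) * x = x * (y * x) ∧ ((x * x) * y) * x = (x * x) * (y * x)

/-- Anticommutative algebras. -/
def IsAnticommutative (A : Type u) [NonUnitalNonAssocRing A] : Prop :=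
  ∀ x y : A, x * y = -(y * x)

/-- `A` is nilpotent: for some `n` every product of at least `n` elements of `A`, under any
arrangement of parentheses, is zero. -/
def IsNilpotentAlgebra (A : Type u) [NonUnitalNonAssocRing A] : Prop :=
  ∃ n : ℕ, ∀ w : FreeMagma A, n ≤ w.length → FreeMagma.lift id w = 0

variable (F)

/-- `A` is locally nilpotent: every finitely generated subalgebra is nilpotent. -/
def IsLocallyNilpotent (A : Type u) [NonUnitalNonAssocRing A] [Module F A]
    [IsScalarTower F A A] [SMulCommClass F A A] : Prop :=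
  ∀ s : Finset A, IsNilpotentAlgebra (NonUnitalAlgebra.adjoin F (s : Set A))

/-- `A` is simple: `A² ≠ 0` and the only two-sided ideals are `0` and `A`. -/
def IsSimpleAlgebra (A : Type u) [NonUnitalNonAssocRing A] [Module F A] : Prop :=
  (∃ x y : A, x * y ≠ 0) ∧
    ∀ I : Submodule F A, (∀ a : A, ∀ x ∈ I, a * x ∈ I ∧ x * a ∈ I) → I = ⊥ ∨ I = ⊤

/-- `A` is a field. -/
def IsFieldAlgebra (A : Type u) [NonUnitalNonAssocRing A] : Prop :=
  (∀ x y : A, x * y = y * x) ∧ (∀ x y z : A, (x * y) * z = x * (y * z)) ∧
    ∃ e : A, e ≠ 0 ∧ (∀ x : A, e * x = x) ∧ ∀ x : A, x ≠ 0 → ∃ y : A, x * y = e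

/-- The variety defined by `S` consists of noncommutative Jordan algebras. -/
def NoncommutativeJordanVariety (S : Set (NAPoly F)) : Prop :=
  ∀ (A : Type u) [NonUnitalNonAssocRing A] [Module F A] [IsScalarTower F A A]
    [SMulCommClass F A A], Satisfies S A → IsNoncommutativeJordan A

/-- The variety defined by `S` is locally admissible: every anticommutative algebra in it is
locally nilpotent. -/
def LocallyAdmissible (S : Set (NAPoly F)) : Prop :=
  ∀ (A : Type u) [NonUnitalNonAssocRing A] [Module F A] [IsScalarTower F A A]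
    [SMulCommClass F A A], Satisfies S A → IsAnticommutative A → IsLocallyNilpotent F A

/-- The variety defined by `S` is nonmatrix: every simple algebra in it is a field. -/
def Nonmatrix (S : Set (NAPoly F)) : Prop :=
  ∀ (A : Type u) [NonUnitalNonAssocRing A] [Module F A] [IsScalarTower F A A]
    [SMulCommClass F A A], Satisfies S A → IsSimpleAlgebra F A → IsFieldAlgebra A

/-- The variety defined by `S` can be defined by finitely many identities. -/
def FinitelyBased (S : Set (NAPoly F)) : Prop :=
  ∃ T : Finset (NAPoly F), ∀ (A : Type u) [NonUnitalNonAssocRing A] [Module F A]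
    [IsScalarTower F A A] [SMulCommClass F A A],
    Satisfies S A ↔ Satisfies (T : Set (NAPoly F)) A

end Defs

/-! ### Words -/

section Words

variable {F : Type u} [Field F]

/-- The monomial of a word. -/
noncomputable def mono {X : Type} (v : X → ℕ) (w : FreeMagma X) : NAPoly F :=
  FreeMagma.lift (fun i => FreeNonUnitalNonAssocAlgebra.of F (v i)) w

variable {A : Type u} [NonUnitalNonAssocRing A] [Module F A] [IsScalarTower F A A]
  [SMulCommClass F A A]

lemma lift_mono {X : Type} (v : X → ℕ) (w : FreeMagma X) (a : ℕ → A) :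
    FreeNonUnitalNonAssocAlgebra.lift F a (mono v w) = FreeMagma.lift (fun i => a (v i)) w := by
  induction w with
  | ih1 x => simp [mono]
  | ih2 x y hx hy =>
    have h : mono (F := F) v (x * y) = mono v x * mono v y := by
      simp [mono]
    rw [h, map_mul, hx, hy, map_mul]

end Words

/-! ### The algebras -/

/-- The space spanned by the `z`-generators. -/
abbrev V (F : Type u) [Field F] (N : ℕ) : Type u := Fin (N + 1) → F

/-- The exterior algebra. -/
abbrev E (F : Type u) [Field F] (N : ℕ) : Type u := ExteriorAlgebra F (V F N)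

/-- The algebra number `N`. -/
@[ext] structure Alg (F : Type u) [Field F] (N : ℕ) : Type u where
  /-- first coordinate -/
  e1 : F
  /-- second coordinate -/
  e2 : F
  /-- third coordinate -/
  e3 : F
  /-- coordinate of `e1 e2` -/
  a : F
  /-- coordinate of `e2 e3` -/
  b : F
  /-- coordinate of `e1 e3` -/
  d : F
  /-- the component in `V` -/
  z : V F N
  /-- the chain -/
  c : ℕ → E F N
  /-- the socle -/
  s : E F N

namespace Alg

variable {F : Type u} [Field F] {N : ℕ}

/-- coordinates -/
def toProd (x : Alg F N) : F × F × F × F × F × F × V F N × (ℕ → E F N) × E F N :=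
  (x.e1, x.e2, x.e3, x.a, x.b, x.d, x.z, x.c, x.s)

lemma toProd_injective : Function.Injective (toProd (F := F) (N := N)) := by
  intro x y h
  simp only [toProd, Prod.mk.injEq] at h
  obtain ⟨h1, h2, h3, h4, h5, h6, h7, h8, h9⟩ := h
  ext1 <;> assumption

instance : Zero (Alg F N) := ⟨⟨0, 0, 0, 0, 0, 0, 0, 0, 0⟩⟩
instance : Add (Alg F N) := ⟨fun x y => ⟨x.e1 + y.e1, x.e2 + y.e2, x.e3 + y.e3, x.a + y.a,
  x.b + y.b, x.d + y.d, x.z + y.z, x.c + y.c, x.s + y.s⟩⟩
instance : Neg (Alg F N) := ⟨fun x => ⟨-x.e1, -x.e2, -x.e3, -x.a, -x.b, -x.d, -x.z, -x.c, -x.s⟩⟩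
instance : Sub (Alg F N) := ⟨fun x y => ⟨x.e1 - y.e1, x.e2 - y.e2, x.e3 - y.e3, x.a - y.a,
  x.b - y.b, x.d - y.d, x.z - y.z, x.c - y.c, x.s - y.s⟩⟩
instance : SMul ℕ (Alg F N) := ⟨fun n x => ⟨n • x.e1, n • x.e2, n • x.e3, n • x.a, n • x.b,
  n • x.d, n • x.z, n • x.c, n • x.s⟩⟩
instance : SMul ℤ (Alg F N) := ⟨fun n x => ⟨n • x.e1, n • x.e2, n • x.e3, n • x.a, n • x.b,
  n • x.d, n • x.z, n • x.c, n • x.s⟩⟩
instance : SMul F (Alg F N) := ⟨fun n x => ⟨n • x.e1, n • x.e2, n • x.e3, n • x.a, n • x.b,
  n • x.d, n • x.z, n • x.c, n • x.s⟩⟩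

instance : AddCommGroup (Alg F N) :=
  toProd_injective.addCommGroup toProd rfl (fun _ _ => rfl) (fun _ => rfl) (fun _ _ => rfl)
    (fun _ _ => rfl) (fun _ _ => rfl)

/-- coordinates as an additive map -/
def toProdHom : Alg F N →+ F × F × F × F × F × F × V F N × (ℕ → E F N) × E F N where
  toFun := toProd
  map_zero' := rfl
  map_add' _ _ := rfl

instance : Module F (Alg F N) :=
  toProd_injective.module F toProdHom (fun _ _ => rfl)

open ExteriorAlgebra in
/-- the chain component of a product -/
noncomputable def chain (x y : Alg F N) : ℕ → E F N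
  | 0 => algebraMap F _ (x.a * y.b - x.b * y.a)
  | k + 1 => x.c k * ι F y.z - y.c k * ι F x.z

noncomputable instance : Mul (Alg F N) where
  mul x y := ⟨0, 0, 0, x.e1 * y.e2 - x.e2 * y.e1, x.e2 * y.e3 - x.e3 * y.e2,
    x.e1 * y.e3 - x.e3 * y.e1, 0, chain x y, y.d • x.c (N + 1) - x.d • y.c (N + 1)⟩

lemma mul_def (x y : Alg F N) : x * y = ⟨0, 0, 0, x.e1 * y.e2 - x.e2 * y.e1,
    x.e2 * y.e3 - x.e3 * y.e2, x.e1 * y.e3 - x.e3 * y.e1, 0, chain x y,
    y.d • x.c (N + 1) - x.d • y.c (N + 1)⟩ := rfl

lemma add_def (x y : Alg F N) : x + y = ⟨x.e1 + y.e1, x.e2 + y.e2, x.e3 + y.e3, x.a + y.a,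
  x.b + y.b, x.d + y.d, x.z + y.z, x.c + y.c, x.s + y.s⟩ := rfl

lemma neg_def (x : Alg F N) : -x = ⟨-x.e1, -x.e2, -x.e3, -x.a, -x.b, -x.d, -x.z, -x.c, -x.s⟩ :=
  rfl

lemma smul_def (n : F) (x : Alg F N) : n • x = ⟨n • x.e1, n • x.e2, n • x.e3, n • x.a, n • x.b,
  n • x.d, n • x.z, n • x.c, n • x.s⟩ := rfl

lemma zero_def : (0 : Alg F N) = ⟨0, 0, 0, 0, 0, 0, 0, 0, 0⟩ := rfl

lemma chain_anti (x y : Alg F N) : chain x y = -chain y x := by
  funext k
  cases k with
  | zero =>
    rw [Pi.neg_apply]
    simp only [chain]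
    rw [← map_neg]
    congr 1
    ring
  | succ k =>
    simp only [chain, Pi.neg_apply]
    abel

lemma chain_add_left (x y z : Alg F N) : chain (x + y) z = chain x z + chain y z := by
  funext k
  cases k with
  | zero =>
    simp only [chain, Pi.add_apply, add_def]
    rw [← map_add]
    congr 1
    ring
  | succ k =>
    simp only [chain, Pi.add_apply, add_def, add_mul, map_add, mul_add]
    abel

lemma chain_smul_left (n : F) (x y : Alg F N) : chain (n • x) y = n • chain x y := by
  funext k
  cases k with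
  | zero =>
    simp only [chain, Pi.smul_apply, smul_def]
    rw [Algebra.smul_def n (algebraMap F (E F N) _), ← map_mul]
    congr 1
    simp only [smul_eq_mul]
    ring
  | succ k =>
    simp only [chain, Pi.smul_apply, smul_def, map_smul, smul_mul_assoc, mul_smul_comm, smul_sub]

lemma mul_anti (x y : Alg F N) : x * y = -(y * x) := by
  rw [mul_def, mul_def, neg_def, chain_anti x y]
  simp only [mk.injEq, neg_zero, true_and, neg_sub, and_true]
  refine ⟨?_, ?_, ?_⟩ <;> ring

lemma add_mul' (x y z : Alg F N) : (x + y) * z = x * z + y * z := by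
  rw [mul_def, mul_def, mul_def, chain_add_left]
  simp only [add_def, mk.injEq, add_zero, true_and, Pi.add_apply, smul_add, add_smul]
  refine ⟨?_, ?_, ?_, ?_⟩
  · ring
  · ring
  · ring
  · abel

lemma smul_mul' (n : F) (x y : Alg F N) : (n • x) * y = n • (x * y) := by
  rw [mul_def, mul_def, chain_smul_left]
  simp only [smul_def, mk.injEq, smul_zero, true_and, Pi.smul_apply, smul_sub, smul_eq_mul]
  refine ⟨(mul_zero n).symm, (mul_zero n).symm, (mul_zero n).symm, ?_, ?_, ?_, ?_⟩
  · ring
  · ring
  · ring
  · rw [smul_comm, mul_smul]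

noncomputable instance : NonUnitalNonAssocRing (Alg F N) where
  left_distrib x y z := by
    rw [mul_anti, add_mul', neg_add, ← mul_anti, ← mul_anti]
  right_distrib := add_mul'
  zero_mul x := by
    have h := smul_mul' (0 : F) 0 x
    rwa [zero_smul, zero_smul] at h
  mul_zero x := by
    have h := smul_mul' (0 : F) 0 x
    rw [zero_smul, zero_smul] at h
    rw [mul_anti, h, neg_zero]

instance : IsScalarTower F (Alg F N) (Alg F N) := ⟨fun n x y => smul_mul' n x y⟩

instance : SMulCommClass F (Alg F N) (Alg F N) := ⟨fun n x y => by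
  rw [smul_eq_mul, smul_eq_mul, mul_anti x (n • y), smul_mul', ← smul_neg, ← mul_anti]⟩

/-! ### Uniform local nilpotency -/

open ExteriorAlgebra in
/-- The span of the products `e * (ι z_1 ... ι z_k)`, `k ≥ m`, where the `z_i` are among given
vectors. -/
noncomputable def Sp {g : ℕ} (u : Fin g → V F N) (m : ℕ) : Submodule F (E F N) :=
  Submodule.span F {t | ∃ (e : E F N) (l : List (Fin g)), m ≤ l.length ∧
    t = e * (l.map fun i => ι F (u i)).prod}

lemma Sp_zero {g : ℕ} (u : Fin g → V F N) (x : E F N) : x ∈ Sp u 0 :=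
  Submodule.subset_span ⟨x, [], by simp, by simp⟩

lemma Sp_mono {g : ℕ} (u : Fin g → V F N) {m n : ℕ} (h : m ≤ n) : Sp u n ≤ Sp u m :=
  Submodule.span_mono fun _ ⟨e, l, hl, ht⟩ => ⟨e, l, h.trans hl, ht⟩

open ExteriorAlgebra in
lemma Sp_mul {g : ℕ} (u : Fin g → V F N) {m : ℕ} {x : E F N} (hx : x ∈ Sp u m) (i : Fin g) :
    x * ι F (u i) ∈ Sp u (m + 1) := by
  induction hx using Submodule.span_induction with
  | mem x h =>
    obtain ⟨e, l, hl, rfl⟩ := h
    refine Submodule.subset_span ⟨e, l ++ [i], by simpa using hl, ?_⟩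
    simp [mul_assoc]
  | zero => simp
  | add x y _ _ hx hy => rw [add_mul]; exact Submodule.add_mem _ hx hy
  | smul a x _ hx => rw [smul_mul_assoc]; exact Submodule.smul_mem _ _ hx

open ExteriorAlgebra in
lemma Sp_eq_bot {g : ℕ} (u : Fin g → V F N) {m : ℕ} (h : g < m) : Sp u m = ⊥ := by
  rw [eq_bot_iff, Sp, Submodule.span_le]
  rintro _ ⟨e, l, hl, rfl⟩
  have h0 : (l.map fun i => ι F (u i)).prod = 0 := by
    have h1 : ¬ l.Nodup := fun hn => by
      have := hn.length_le_card
      simp at this
      omega
    have h2 : (l.map fun i => ι F (u i)).prod = ιMulti F l.length (fun j => u (l.get j)) := by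
      rw [ιMulti_apply]
      congr 1
      rw [List.ofFn_eq_map]
      conv_lhs => rw [← List.map_get_finRange l]
      rw [List.map_map]
      rfl
    rw [h2]
    rw [List.nodup_iff_injective_get] at h1
    simp only [Function.Injective, not_forall] at h1
    obtain ⟨i, j, hij, hne⟩ := h1
    exact AlternatingMap.map_eq_zero_of_eq _ _ (by simp only [hij]) hne
  rw [h0, mul_zero]
  exact Submodule.zero_mem _

lemma word_cases {X : Type} (w : FreeMagma X) : (∃ i, w = FreeMagma.of i) ∨ 2 ≤ w.length := by
  induction w with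
  | ih1 i => exact Or.inl ⟨i, rfl⟩
  | ih2 x y _ _ =>
    right
    have h1 := x.length_pos
    have h2 := y.length_pos
    have h : (x * y).length = x.length + y.length := rfl
    omega

/-- Value of a word. -/
noncomputable abbrev val {g : ℕ} (u : Fin g → Alg F N) (w : FreeMagma (Fin g)) : Alg F N :=
  FreeMagma.lift u w

lemma val_low {g : ℕ} (u : Fin g → Alg F N) (w : FreeMagma (Fin g)) (h : 2 ≤ w.length) :
    (val u w).e1 = 0 ∧ (val u w).e2 = 0 ∧ (val u w).e3 = 0 ∧ (val u w).z = 0 := by
  induction w with
  | ih1 i => simp [FreeMagma.length] at h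
  | ih2 x y _ _ =>
    have : val u (x * y) = val u x * val u y := map_mul _ _ _
    rw [this, mul_def]
    exact ⟨rfl, rfl, rfl, rfl⟩

lemma val_mid {g : ℕ} (u : Fin g → Alg F N) (w : FreeMagma (Fin g)) (h : 3 ≤ w.length) :
    (val u w).a = 0 ∧ (val u w).b = 0 ∧ (val u w).d = 0 := by
  induction w with
  | ih1 i => simp [FreeMagma.length] at h
  | ih2 x y _ _ =>
    have hL : (x * y).length = x.length + y.length := rfl
    have : val u (x * y) = val u x * val u y := map_mul _ _ _
    rw [this, mul_def]
    have : 2 ≤ x.length ∨ 2 ≤ y.length := by omega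
    rcases this with h1 | h1
    · obtain ⟨h1, h2, h3, _⟩ := val_low u x h1
      simp [h1, h2, h3]
    · obtain ⟨h1, h2, h3, _⟩ := val_low u y h1
      simp [h1, h2, h3]

lemma val_chain {g : ℕ} (u : Fin g → Alg F N) (w : FreeMagma (Fin g)) :
    ∀ k, (val u w).c k ∈ Sp (fun i => (u i).z) (w.length - 4) := by
  induction w with
  | ih1 i => intro k; exact Sp_zero _ _
  | ih2 x y hx hy =>
    have hL : (x * y).length = x.length + y.length := rfl
    have hv : val u (x * y) = val u x * val u y := map_mul _ _ _
    intro k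
    rw [hv, mul_def]
    cases k with
    | zero =>
      simp only [chain]
      by_cases h4 : (x * y).length ≤ 4
      · rw [Nat.sub_eq_zero_of_le h4]
        exact Sp_zero _ _
      · have : 3 ≤ x.length ∨ 3 ≤ y.length := by omega
        have h0 : (val u x).a * (val u y).b - (val u x).b * (val u y).a = 0 := by
          rcases this with h1 | h1
          · obtain ⟨h1, h2, _⟩ := val_mid u x h1
            rw [h1, h2]; ring
          · obtain ⟨h1, h2, _⟩ := val_mid u y h1
            rw [h1, h2]; ring
        rw [h0, map_zero]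
        exact Submodule.zero_mem _
    | succ k =>
      simp only [chain]
      refine Submodule.sub_mem _ ?_ ?_
      · rcases word_cases y with ⟨i, rfl⟩ | h
        · have h1 := Sp_mul _ (hx k) i
          refine Sp_mono _ ?_ h1
          have : (FreeMagma.of i).length = 1 := rfl
          omega
        · rw [(val_low u y h).2.2.2, map_zero, mul_zero]
          exact Submodule.zero_mem _
      · rcases word_cases x with ⟨i, rfl⟩ | h
        · have h1 := Sp_mul _ (hy k) i
          refine Sp_mono _ ?_ h1
          have : (FreeMagma.of i).length = 1 := rfl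
          omega
        · rw [(val_low u x h).2.2.2, map_zero, mul_zero]
          exact Submodule.zero_mem _

lemma val_chain_zero {g : ℕ} (u : Fin g → Alg F N) (w : FreeMagma (Fin g))
    (h : g + 5 ≤ w.length) (k : ℕ) : (val u w).c k = 0 := by
  have h1 := val_chain u w k
  rw [Sp_eq_bot _ (by omega)] at h1
  exact (Submodule.mem_bot F).mp h1

theorem val_zero {g : ℕ} (u : Fin g → Alg F N) (w : FreeMagma (Fin g))
    (h : g + 7 ≤ w.length) : val u w = 0 := by
  obtain ⟨h1, h2, h3, h4⟩ := val_low u w (by omega)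
  obtain ⟨h5, h6, h7⟩ := val_mid u w (by omega)
  have h8 := val_chain_zero u w (by omega)
  have h9 : (val u w).s = 0 := by
    rcases word_cases w with ⟨i, rfl⟩ | _
    · simp [FreeMagma.length] at h
    · cases w with
      | of i => simp [FreeMagma.length] at h
      | mul x y =>
        have hL : (FreeMagma.mul x y).length = x.length + y.length := rfl
        have hv : val u (FreeMagma.mul x y) = val u x * val u y := map_mul _ x y
        rw [hv, mul_def]
        simp only
        have e1 : (val u y).d • (val u x).c (N + 1) = 0 := by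
          by_cases hy : 3 ≤ y.length
          · rw [(val_mid u y hy).2.2, zero_smul]
          · rw [val_chain_zero u x (by omega), smul_zero]
        have e2 : (val u x).d • (val u y).c (N + 1) = 0 := by
          by_cases hx : 3 ≤ x.length
          · rw [(val_mid u x hx).2.2, zero_smul]
          · rw [val_chain_zero u y (by omega), smul_zero]
        rw [e1, e2, sub_zero]
  ext1
  · exact h1
  · exact h2
  · exact h3
  · exact h5
  · exact h6
  · exact h7
  · exact h4
  · funext k; exact h8 k
  · exact h9

/-- solvability: `((x0 x1)(x2 x3))(x4 x5) = 0` -/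
theorem solvable (x0 x1 x2 x3 x4 x5 : Alg F N) : ((x0 * x1) * (x2 * x3)) * (x4 * x5) = 0 := by
  have h1 : ∀ k, ((x0 * x1) * (x2 * x3)).c (k + 1) = 0 := by
    intro k
    rw [mul_def]
    simp [chain, mul_def]
  rw [mul_def ((x0 * x1) * (x2 * x3)) (x4 * x5), zero_def]
  have h2 : chain ((x0 * x1) * (x2 * x3)) (x4 * x5) = 0 := by
    funext k
    cases k with
    | zero => simp [chain, mul_def]
    | succ k => simp [chain, mul_def]
  rw [h2, h1]
  simp [mul_def]

end Alg

end Pool.Agent.H772R3.Specht
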