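import Pool.Agent.H772R3.Specht

set_option autoImplicit false

/-!
The independent monomials and the algebras separating them.
-/

namespace Pool.Agent.H772R3.Specht

universe u

/-- `((x0 x1)(x2 x3)) z_1 ... z_k` -/
def spine : ℕ → FreeMagma ℕ
  | 0 => (FreeMagma.of 0 * FreeMagma.of 1) * (FreeMagma.of 2 * FreeMagma.of 3)
  | k + 1 => spine k * FreeMagma.of (6 + k)

/-- `(((x0 x1)(x2 x3)) z_1 ... z_{n+1}) (x4 x5)` -/
def W (n : ℕ) : FreeMagma ℕ := spine (n + 1) * (FreeMagma.of 4 * FreeMagma.of 5)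

namespace Alg

variable {F : Type u} [Field F] {N : ℕ}

lemma spine_low (a : ℕ → Alg F N) (k : ℕ) :
    (FreeMagma.lift a (spine k)).e1 = 0 ∧ (FreeMagma.lift a (spine k)).e2 = 0 ∧
    (FreeMagma.lift a (spine k)).e3 = 0 ∧ (FreeMagma.lift a (spine k)).a = 0 ∧
    (FreeMagma.lift a (spine k)).b = 0 ∧ (FreeMagma.lift a (spine k)).d = 0 ∧
    (FreeMagma.lift a (spine k)).z = 0 := by
  induction k with
  | zero => simp [spine, mul_def]
  | succ k ih =>
    obtain ⟨h1, h2, h3, h4, h5, h6, h7⟩ := ih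
    simp [spine, mul_def, h1, h2, h3]

lemma spine_chain_ne (a : ℕ → Alg F N) (k j : ℕ) (h : j ≠ k) :
    (FreeMagma.lift a (spine k)).c j = 0 := by
  induction k generalizing j with
  | zero =>
    cases j with
    | zero => exact absurd rfl h
    | succ j => simp [spine, mul_def, chain]
  | succ k ih =>
    obtain ⟨h1, h2, h3, h4, h5, h6, h7⟩ := spine_low a k
    cases j with
    | zero =>
      have : (FreeMagma.lift a (spine (k + 1))) = FreeMagma.lift a (spine k) * a (6 + k) := by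
        simp [spine]
      rw [this, mul_def]
      simp [chain, h4, h5]
    | succ j =>
      have : (FreeMagma.lift a (spine (k + 1))) = FreeMagma.lift a (spine k) * a (6 + k) := by
        simp [spine]
      rw [this, mul_def]
      simp [chain, h7, ih j (by omega)]

open ExteriorAlgebra in
lemma spine_chain_self (a : ℕ → Alg F N) (k : ℕ) :
    (FreeMagma.lift a (spine k)).c k =
      (FreeMagma.lift a (spine 0)).c 0 * (List.ofFn fun i : Fin k => ι F (a (6 + i)).z).prod := by
  induction k with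
  | zero => simp
  | succ k ih =>
    obtain ⟨h1, h2, h3, h4, h5, h6, h7⟩ := spine_low a k
    have : (FreeMagma.lift a (spine (k + 1))) = FreeMagma.lift a (spine k) * a (6 + k) := by
      simp [spine]
    rw [this, mul_def]
    simp only [chain, h7, map_zero, mul_zero, sub_zero]
    rw [ih, List.ofFn_succ', List.concat_eq_append, List.prod_append]
    simp [mul_assoc]

lemma W_value (a : ℕ → Alg F N) (n : ℕ) :
    FreeMagma.lift a (W n) = ⟨0, 0, 0, 0, 0, 0, 0, 0,
      (a 4 * a 5).d • (FreeMagma.lift a (spine (n + 1))).c (N + 1)⟩ := by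
  obtain ⟨h1, h2, h3, h4, h5, h6, h7⟩ := spine_low a (n + 1)
  have h : FreeMagma.lift a (W n) = FreeMagma.lift a (spine (n + 1)) * (a 4 * a 5) := by
    simp [W]
  have hz : (a 4 * a 5).z = 0 := rfl
  rw [h, mul_def]
  have hc : chain (FreeMagma.lift a (spine (n + 1))) (a 4 * a 5) = 0 := by
    funext k
    cases k with
    | zero => simp only [chain, h4, h5]; simp
    | succ k => simp only [chain, h7, hz]; simp
  rw [hc, h1, h2, h3, h6]
  simp

theorem W_zero (a : ℕ → Alg F N) (n : ℕ) (h : n ≠ N) : FreeMagma.lift a (W n) = 0 := by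
  rw [W_value, spine_chain_ne a (n + 1) (N + 1) (by omega), smul_zero]
  rfl

/-- The assignment on which `W N` does not vanish. -/
def wit (F : Type u) [Field F] (N : ℕ) : ℕ → Alg F N
  | 0 => ⟨1, 0, 0, 0, 0, 0, 0, 0, 0⟩
  | 1 => ⟨0, 1, 0, 0, 0, 0, 0, 0, 0⟩
  | 2 => ⟨0, 1, 0, 0, 0, 0, 0, 0, 0⟩
  | 3 => ⟨0, 0, 1, 0, 0, 0, 0, 0, 0⟩
  | 4 => ⟨1, 0, 0, 0, 0, 0, 0, 0, 0⟩
  | 5 => ⟨0, 0, 1, 0, 0, 0, 0, 0, 0⟩
  | k + 6 => ⟨0, 0, 0, 0, 0, 0, fun i => if (i : ℕ) = k then 1 else 0, 0, 0⟩

open ExteriorAlgebra in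
lemma prod_ne_zero (F : Type u) [Field F] (N : ℕ) :
    (List.ofFn fun i : Fin (N + 1) => ι F (wit F N (6 + i)).z).prod ≠ (0 : E F N) := by
  have h : (List.ofFn fun i : Fin (N + 1) => ι F (wit F N (6 + i)).z).prod =
      ιMulti F (N + 1) (fun i : Fin (N + 1) => (Pi.single i 1 : V F N)) := by
    rw [ιMulti_apply]
    congr 1
    congr 1
    funext i
    congr 1
    have : wit F N (6 + i) = wit F N (i + 6) := by rw [add_comm]
    rw [this]
    funext j
    simp only [wit]
    by_cases hij : j = i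
    · subst hij; simp
    · rw [if_neg (fun h => hij (Fin.ext h)), Pi.single_eq_of_ne hij]
  rw [h]
  intro h0
  let f : ∀ i, (V F N) [⋀^Fin i]→ₗ[F] F :=
    Pi.single (M := fun i => (V F N) [⋀^Fin i]→ₗ[F] F) (N + 1) Matrix.detRowAlternating
  have h1 := congrArg (liftAlternating f) h0
  rw [liftAlternating_apply_ιMulti, map_zero] at h1
  simp only [f, Pi.single_eq_same] at h1
  have h2 : (Matrix.detRowAlternating : (V F N) [⋀^Fin (N + 1)]→ₗ[F] F)
      (fun i : Fin (N + 1) => (Pi.single i 1 : V F N)) = 1 := by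
    have h3 : (fun i : Fin (N + 1) => (Pi.single i 1 : V F N)) =
        (1 : Matrix (Fin (N + 1)) (Fin (N + 1)) F) := by
      funext i j
      rw [Matrix.one_apply, Pi.single_apply]
      simp only [eq_comm]
    have h4 := Matrix.det_one (n := Fin (N + 1)) (R := F)
    rw [← h3] at h4
    exact h4
  rw [h2] at h1
  exact one_ne_zero h1

theorem W_ne_zero (F : Type u) [Field F] (N : ℕ) : FreeMagma.lift (wit F N) (W N) ≠ 0 := by
  rw [W_value, spine_chain_self]
  have h1 : (wit F N 4 * wit F N 5).d = 1 := by simp [mul_def, wit]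
  have h2 : (FreeMagma.lift (wit F N) (spine 0)).c 0 = 1 := by
    simp [spine, mul_def, wit, chain]
  rw [h1, h2, one_mul, one_smul]
  intro h
  exact prod_ne_zero F N (congrArg Alg.s h)

end Alg

end Pool.Agent.H772R3.Specht
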